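import Pool.Agent.FD29.AdE

/-!
# A central polynomial ring in degree zero, and growth over it
-/

set_option autoImplicit false

namespace BI29

open Finset Module FD29

variable {k A0 A : Type} [Field k] [CommRing A0] [IsDomain A0] [Algebra k A0] [Ring A]
  [Algebra k A] {F : ℕ → Submodule k A} {σ : ℕ → A → A0} {𝒜 : ℕ → Submodule k A0}
  [GradedAlgebra 𝒜]

theorem exists_base (d : Defo 𝒜 F σ) [Algebra.FiniteType k A0] {p : ℕ} [hp : Fact p.Prime]
    [CharP k p] :
    ∃ (u : Type) (iA : MvPolynomial u k →ₐ[k] A) (i0 : MvPolynomial u k →ₐ[k] A0),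
      (∀ r a, iA r * a = a * iA r) ∧ (∀ r, iA r ∈ F 0) ∧ (∀ r, σ 0 (iA r) = i0 r) ∧
      Function.Injective i0 ∧
      ∀ x ∈ 𝒜 0, ∃ q : Polynomial (MvPolynomial u k), q ≠ 0 ∧
        q.eval₂ (i0 : MvPolynomial u k →+* A0) x = 0 := by
  classical
  have hf := d.filt
  obtain ⟨n, hn⟩ := d.exists_central (p := p)
  set Q := p ^ n with hQ
  have hQ0 : Q ≠ 0 := pow_ne_zero _ hp.out.ne_zero
  set S0 : Set A0 := {y | ∃ b, b ∈ F 0 ∧ y = σ 0 b} with hS0
  set G0 := Algebra.adjoin k S0 with hG0
  set t : Set G0 := (fun g : G0 => (g : A0)) ⁻¹' S0 with ht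
  have htop : Algebra.adjoin k t = ⊤ := Algebra.adjoin_adjoin_coe_preimage
  haveI : Algebra.IsAlgebraic (Algebra.adjoin k t) G0 := by
    refine ⟨fun g => ?_⟩
    have hg : g ∈ Algebra.adjoin k t := by
      rw [htop]
      exact Algebra.mem_top
    exact isAlgebraic_algebraMap (⟨g, hg⟩ : Algebra.adjoin k t)
  obtain ⟨u, hut, hu⟩ := exists_isTranscendenceBasis_subset (R := k) t
  have hsel : ∀ i : u, ∃ b, b ∈ F 0 ∧ ((i : G0) : A0) = σ 0 b := fun i => hut i.2
  choose b hbF hbσ using hsel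
  have hfin : Algebra.trdeg k G0 < Cardinal.aleph0 := by
    refine lt_of_le_of_lt ?_ (trdeg_lt_aleph0_of_finiteType (R := k) (S := A0))
    exact trdeg_le_of_injective G0.val Subtype.val_injective
  set y : u → G0 := fun i => (i : G0) ^ Q with hy
  have hyi : AlgebraicIndependent k y := algInd_pow hu.1 hQ0
  have hyb : IsTranscendenceBasis k y :=
    hyi.isTranscendenceBasis_of_trdeg_le hfin hu.cardinalMk_eq_trdeg.ge
  let Z := Subalgebra.center k A
  have hbc : ∀ i, b i ^ Q ∈ Z := fun i => by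
    rw [Subalgebra.mem_center_iff]
    intro a
    exact (hn (b i) (hbF i) a).symm
  let z : u → Z := fun i => ⟨b i ^ Q, hbc i⟩
  let iA : MvPolynomial u k →ₐ[k] A := Z.val.comp (MvPolynomial.aeval z)
  let i0 : MvPolynomial u k →ₐ[k] A0 := G0.val.comp (MvPolynomial.aeval y)
  have hiX : ∀ i, iA (MvPolynomial.X i) = b i ^ Q := fun i => by
    change ((MvPolynomial.aeval z (MvPolynomial.X i) : Z) : A) = _
    rw [MvPolynomial.aeval_X]
  have hi0X : ∀ i, i0 (MvPolynomial.X i) = σ 0 (b i) ^ Q := fun i => by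
    change ((MvPolynomial.aeval y (MvPolynomial.X i) : G0) : A0) = _
    rw [MvPolynomial.aeval_X, ← hbσ i]
    rfl
  have hFB : ∀ r, iA r ∈ F 0 ∧ σ 0 (iA r) = i0 r := by
    intro r
    induction r using MvPolynomial.induction_on with
    | C c =>
      have e1 : iA (MvPolynomial.C c) = algebraMap k A c := iA.commutes c
      have e2 : i0 (MvPolynomial.C c) = algebraMap k A0 c := i0.commutes c
      rw [e1, e2, Algebra.algebraMap_eq_smul_one, Algebra.algebraMap_eq_smul_one,
        hf.smul _ _ _ hf.one, hf.sym_one]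
      exact ⟨Submodule.smul_mem _ _ hf.one, rfl⟩
    | add r s hr hs =>
      rw [map_add, map_add, hf.add _ _ _ hr.1 hs.1, hr.2, hs.2]
      exact ⟨Submodule.add_mem _ hr.1 hs.1, rfl⟩
    | mul_X r i hr =>
      have h0 := hf.pow_mem (hbF i) Q
      have h0' := hf.sym_pow (hbF i) Q
      rw [mul_zero] at h0 h0'
      rw [map_mul, map_mul, hiX, hi0X]
      have h1 := hf.mul _ _ _ _ hr.1 h0
      have h2 := hf.sym_mul _ _ _ _ hr.1 h0
      rw [add_zero] at h1 h2
      exact ⟨h1, by rw [h2, hr.2, h0']⟩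
  have hi0 : Function.Injective i0 :=
    fun r s hrs => hyi (Subtype.ext hrs)
  refine ⟨u, iA, i0, ?_, fun r => (hFB r).1, fun r => (hFB r).2, hi0, ?_⟩
  · intro r a
    exact (Subalgebra.mem_center_iff.1 (MvPolynomial.aeval z r).2 a).symm
  · intro x hx
    letI : Algebra (MvPolynomial u k) G0 := ((MvPolynomial.aeval y : MvPolynomial u k →ₐ[k] G0) :
      MvPolynomial u k →+* G0).toAlgebra
    haveI : Algebra.IsAlgebraic (MvPolynomial u k) G0 := by
      refine ⟨fun g => ?_⟩
      haveI := hyb.isAlgebraic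
      have h1 : IsAlgebraic (Algebra.adjoin k (Set.range y)) g := Algebra.IsAlgebraic.isAlgebraic g
      exact (isAlgebraic_ringHom_iff_of_comp_eq hyi.aevalEquiv (RingHom.id G0)
        Function.injective_id (RingHom.ext fun r => rfl)).1 h1
    obtain ⟨f, hfF, hfx⟩ := d.surj 0 x hx
    have hxG : x ∈ G0 := Algebra.subset_adjoin ⟨f, hfF, hfx.symm⟩
    obtain ⟨q, hq, hqx⟩ := Algebra.IsAlgebraic.isAlgebraic (R := MvPolynomial u k) (⟨x, hxG⟩ : G0)
    refine ⟨q, hq, ?_⟩
    have h1 := congrArg G0.val hqx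
    rw [Polynomial.aeval_def, map_zero] at h1
    have h2 := Polynomial.hom_eval₂ q (algebraMap (MvPolynomial u k) G0) (G0.val : G0 →+* A0)
      (⟨x, hxG⟩ : G0)
    exact (h2.symm.trans h1 : _)

/-- growth over a central ring of degree zero -/
theorem exists_growth (d : Defo 𝒜 F σ) [Algebra.FiniteType k A0] {p : ℕ} [hp : Fact p.Prime]
    [CharP k p] {R : Type} [CommRing R] [IsDomain R] [Algebra k R] (iA : R →ₐ[k] A)
    (i0 : R →ₐ[k] A0) (hcen : ∀ r a, iA r * a = a * iA r) (hmem : ∀ r, iA r ∈ F 0)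
    (hsym : ∀ r, σ 0 (iA r) = i0 r) (hi0 : Function.Injective i0)
    (halg0 : ∀ x ∈ 𝒜 0, ∃ q : Polynomial R, q ≠ 0 ∧ q.eval₂ (i0 : R →+* A0) x = 0) :
    ∃ (r C₀ : ℕ), (r : Cardinal) + Algebra.trdeg k R ≤ Algebra.trdeg k A0 ∧
      ∀ (m N : ℕ) (x : Fin N → A), (∀ i, x i ∈ F m) →
        (∀ c : Fin N → R, ∑ i, iA (c i) * x i = 0 → c = 0) → N ≤ C₀ * (m + 1) ^ r := by
  classical
  refine d.bc_aux iA i0 hcen hmem hsym hi0 halg0 _ ?_
  intro κ L A' _ _ _ _ _ _ _ _ _ _ _ iκ j h halg
  have hf := d.filt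
  have hf' := BC.filt hf h
  haveI : CharP κ p := charP_of_injective_algebraMap (algebraMap k κ).injective p
  obtain ⟨V, hV, hone, hFV⟩ := h.exists_V d halg
  have hfin := finite_of_symbols hf' V hV hFV
  have e1 : Algebra.trdeg k κ + Algebra.trdeg κ L = Algebra.trdeg k A0 := by
    rw [trdeg_add_eq k κ (A := L), trdeg_frac (A0 := A0) (L := L)]
  have e2 : Algebra.trdeg k A0 < Cardinal.aleph0 := trdeg_lt_aleph0_of_finiteType
  have e3 : Algebra.trdeg κ L < Cardinal.aleph0 :=
    lt_of_le_of_lt (by rw [← e1]; exact self_le_add_left _ _) e2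
  obtain ⟨r, hr⟩ := Cardinal.lt_aleph0.1 e3
  obtain ⟨C₀, hgr⟩ := hf'.growth hfin (fun m y hy hs => BC.grad hf h (d.grad) m y hy hs) hr V hV
    hone hFV
  refine ⟨r, C₀, ?_, ?_⟩
  · let f : R →ₐ[k] κ :=
      { toRingHom := iκ
        commutes' := fun c => by
          change iκ (algebraMap k R c) = algebraMap k κ c
          apply (algebraMap κ L).injective
          rw [h.compat, ← IsScalarTower.algebraMap_apply k κ L]
          change algebraMap A0 L (i0 (algebraMap k R c)) = _
          rw [i0.commutes, ← IsScalarTower.algebraMap_apply k A0 L] }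
    have e4 : Algebra.trdeg k R ≤ Algebra.trdeg k κ := trdeg_le_of_injective f h.iκ_inj
    rw [← e1, hr, add_comm]
    exact add_le_add_left e4 _
  · intro m N x hx hind
    haveI := hfin m
    let y : Fin N → h.F' hf m := fun i => ⟨j (x i), h.j_mem_F' hf (hx i)⟩
    have hy : LinearIndependent κ y := by
      rw [Fintype.linearIndependent_iff]
      intro t ht
      have ht' : ∑ i, t i • j (x i) = 0 := by
        have := congrArg (fun z : h.F' hf m => (z : A')) ht
        simpa [y] using this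
      choose a δ hδ hδt using fun i => h.frac (t i)
      let b : Fin N → R := fun i => a i * ∏ l ∈ univ.erase i, δ l
      have hb : ∀ i, iκ (∏ l, δ l) * t i = iκ (b i) := by
        intro i
        rw [← Finset.mul_prod_erase univ δ (mem_univ i), map_mul, map_mul, mul_right_comm, hδt]
      have h1 : j (∑ i, iA (b i) * x i) = 0 := by
        rw [map_sum]
        have h2 : ∀ i, j (iA (b i) * x i) = iκ (∏ l, δ l) • (t i • j (x i)) := by
          intro i
          rw [smul_smul, hb i]
          exact h.j_mul (b i) (x i)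
        rw [Finset.sum_congr rfl fun i _ => h2 i, ← Finset.smul_sum, ht', smul_zero]
      have h3 : ∑ i, iA (b i) * x i = 0 := h.j_inj (by rw [h1, map_zero])
      have h4 := hind b h3
      intro i
      have h5 : a i * ∏ l ∈ univ.erase i, δ l = 0 := congrFun h4 i
      have h6 : a i = 0 := by
        rcases mul_eq_zero.1 h5 with h7 | h7
        · exact h7
        · exact absurd h7 (Finset.prod_ne_zero_iff.2 fun l _ => hδ l)
      have h8 := hδt i
      rw [h6, map_zero] at h8
      exact (mul_eq_zero.1 h8).resolve_left (h.iκ_ne (hδ i))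
    have h9 := hy.fintype_card_le_finrank
    rw [Fintype.card_fin] at h9
    exact h9.trans (hgr m)

end BI29
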