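import Pool.Agent.BI29.Poly

/-!
# The core inequality
-/

set_option autoImplicit false

namespace BI29

open Finset Module MvPolynomial

variable {κ D : Type} [Field κ] [DivisionRing D] [Algebra κ D]

variable {n m : ℕ} {φ : MvPolynomial (Fin n) κ →ₐ[κ] D}
  {ψ : MvPolynomial (Fin m) (Subring.center D) →ₐ[Subring.center D] D}
  {Θ : MvPolynomial (Fin m) (MvPolynomial (Fin n) κ) →+* Module.End κ D}

variable {p : ℕ} {G : ℕ → Submodule κ D} {g : ℕ} {u : Fin g → D} {d : Fin g → ℕ} {c E : ℕ}

/-- a nonzero combination of products kills a piece of the filtration -/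
theorem Cor.exists_kill (h : Cor p G g u d c E)
    (h1 : ∀ P, Θ (C P) = LinearMap.mulLeft κ (φ P)) {ι : Type} [Fintype ι]
    (θ : ι → MvPolynomial (Fin m) (MvPolynomial (Fin n) κ)) (hθ : LinearIndependent κ θ)
    {q T : ℕ} (hT : ∀ i, Θ (θ i) ∈ Op G T) (hcard : finrank κ (G (q + T)) < Fintype.card ι) :
    ∃ Q, Q ≠ 0 ∧ Θ Q ∈ Op G (T + T) ∧ ∀ x ∈ G q, Θ Q x = 0 := by
  classical
  haveI := h.fin q
  haveI := h.fin (q + T)
  haveI := h.fin (q + T + T)
  let bq := finBasis κ (G q)
  let b1 := finBasis κ (G (q + T))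
  let b2 := finBasis κ (G (q + T + T))
  let f1 : ι → (G q →ₗ[κ] G (q + T)) := fun i =>
    (Θ (θ i)).restrict (fun x hx => h.op_apply (hT i) hx)
  let f2 : ι → (G (q + T) →ₗ[κ] G (q + T + T)) := fun i =>
    (Θ (θ i)).restrict (fun x hx => h.op_apply (hT i) hx)
  have hcomm : ∀ i j, f2 i ∘ₗ f1 j = f2 j ∘ₗ f1 i := by
    intro i j
    ext x
    change Θ (θ i) (Θ (θ j) (x : D)) = Θ (θ j) (Θ (θ i) (x : D))
    rw [← Module.End.mul_apply, ← map_mul, mul_comm, map_mul, Module.End.mul_apply]
  let a : ι → Matrix (Fin (finrank κ (G (q + T)))) (Fin (finrank κ (G q))) κ := fun i =>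
    LinearMap.toMatrix bq b1 (f1 i)
  let b : ι → Matrix (Fin (finrank κ (G (q + T + T)))) (Fin (finrank κ (G (q + T)))) κ := fun i =>
    LinearMap.toMatrix b1 b2 (f2 i)
  have hab : ∀ i j, b i * a j = LinearMap.toMatrix bq b2 (f2 i ∘ₗ f1 j) := fun i j =>
    (LinearMap.toMatrix_comp bq b1 b2 (f2 i) (f1 j)).symm
  obtain ⟨P, hP, hP0⟩ := generic a b (fun i j => by rw [hab, hab, hcomm]) hcard
  obtain ⟨μ, hμ⟩ := exists_square θ hθ P hP
  refine ⟨_, hμ, ?_, ?_⟩
  · rw [map_sum]
    refine Submodule.sum_mem _ fun i _ => ?_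
    rw [map_sum]
    refine Submodule.sum_mem _ fun j _ => ?_
    rw [op_smul h1, map_mul]
    exact Submodule.smul_mem _ _ (h.op_mul (hT i) (hT j))
  · have hz : ∑ i, ∑ j, (coeff μ (P i * P j)) • (f2 i ∘ₗ f1 j) = 0 := by
      apply (LinearMap.toMatrix bq b2).injective
      rw [map_zero, map_sum]
      ext s t
      rw [Matrix.sum_apply, Matrix.zero_apply]
      have e1 := congrArg (coeff μ) (hP0 s t)
      rw [coeff_sum, coeff_zero] at e1
      rw [← e1]
      refine Finset.sum_congr rfl fun i _ => ?_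
      rw [coeff_sum, map_sum, Matrix.sum_apply]
      refine Finset.sum_congr rfl fun j _ => ?_
      rw [map_smul, Matrix.smul_apply, ← hab, smul_eq_mul, mul_comm (P i * P j), coeff_C_mul,
        mul_comm]
    intro x hx
    have e1 := congrArg (fun f : G q →ₗ[κ] G (q + T + T) => ((f ⟨x, hx⟩ : G (q + T + T)) : D)) hz
    simp only [LinearMap.sum_apply, LinearMap.smul_apply, LinearMap.zero_apply,
      Submodule.coe_zero, Submodule.coe_sum, Submodule.coe_smul] at e1
    rw [map_sum, LinearMap.sum_apply, ← e1]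
    refine Finset.sum_congr rfl fun i _ => ?_
    rw [map_sum, LinearMap.sum_apply]
    refine Finset.sum_congr rfl fun j _ => ?_
    rw [op_smul h1, map_mul]
    rfl

/-- the monomials with exponents less than `s` -/
noncomputable def mn (κ : Type) [Field κ] (n m s : ℕ)
    (JK : (Fin n → Fin s) × (Fin m → Fin s)) :
    MvPolynomial (Fin m) (MvPolynomial (Fin n) κ) :=
  monomial (Finsupp.equivFunOnFinite.symm fun j => (JK.2 j : ℕ))
    (monomial (Finsupp.equivFunOnFinite.symm fun j => (JK.1 j : ℕ)) 1)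

theorem mn_linInd (κ : Type) [Field κ] (n m s : ℕ) : LinearIndependent κ (mn κ n m s) := by
  classical
  rw [Fintype.linearIndependent_iff]
  intro t ht JK
  have h1 := congrArg (fun Q => coeff (Finsupp.equivFunOnFinite.symm fun j => (JK.1 j : ℕ))
    (coeff (Finsupp.equivFunOnFinite.symm fun j => (JK.2 j : ℕ)) Q)) ht
  simp only [coeff_sum, coeff_zero] at h1
  rw [Finset.sum_eq_single JK] at h1
  · rw [coeff_smul, coeff_smul, mn, coeff_monomial, if_pos rfl, coeff_monomial, if_pos rfl,
      smul_eq_mul, mul_one] at h1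
    exact h1
  · intro JK' _ hne
    rw [coeff_smul, coeff_smul, mn, coeff_monomial]
    split_ifs with h2
    · rw [coeff_monomial]
      split_ifs with h3
      · exfalso
        apply hne
        refine Prod.ext ?_ ?_
        · funext j
          apply Fin.ext
          exact congrFun (Finsupp.equivFunOnFinite.symm.injective h3) j
        · funext j
          apply Fin.ext
          exact congrFun (Finsupp.equivFunOnFinite.symm.injective h2) j
      · rw [smul_zero]
    · rw [coeff_zero, smul_zero]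
  · intro h2
    exact absurd (mem_univ JK) h2

theorem Cor.mono_mem {R : Type} [CommRing R] (h : Cor p G g u d c E)
    {l : ℕ} (f : MvPolynomial (Fin l) R →+* D) (N : Fin l → ℕ)
    (hN : ∀ i, f (X i) ∈ G (N i)) (J : Fin l →₀ ℕ) :
    f (monomial J 1) ∈ G (∑ i, J i * N i) := by
  classical
  induction J using Finsupp.induction_linear with
  | zero =>
    have : (monomial 0 (1 : R)) = (1 : MvPolynomial (Fin l) _) := rfl
    rw [this, map_one]
    simpa using h.one
  | add K L hK hL =>
    have a1 : (monomial (K + L) (1 : R)) = (monomial K 1 * monomial L 1 : MvPolynomial (Fin l) _) := by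
      rw [monomial_mul, mul_one]
    rw [a1, map_mul]
    have := h.mul _ _ _ _ hK hL
    rw [← Finset.sum_add_distrib] at this
    simpa only [Finsupp.add_apply, add_mul] using this
  | single i e =>
    have a1 : (monomial (Finsupp.single i e) (1 : R)) = (X i ^ e : MvPolynomial (Fin l) _) := by
      rw [X_pow_eq_monomial]
    rw [a1, map_pow]
    have h1 : ∑ j, (Finsupp.single i e) j * N j = e * N i := by
      rw [Finset.sum_eq_single i]
      · rw [Finsupp.single_eq_same]
      · intro j _ hj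
        rw [Finsupp.single_eq_of_ne hj, zero_mul]
      · intro h2
        exact absurd (mem_univ i) h2
    rw [h1]
    exact h.pow_mem (hN i) e

theorem exists_pow_bound (p : ℕ) (hp : 2 ≤ p) (T : ℕ) :
    ∃ i, T + T < p ^ i ∧ p ^ i ≤ p * (T + T + 1) := by
  refine ⟨Nat.log p (T + T) + 1, Nat.lt_pow_succ_log_self (by omega) _, ?_⟩
  rw [pow_succ, mul_comm]
  refine Nat.mul_le_mul_left p ?_
  rcases Nat.eq_zero_or_pos (T + T) with h0 | h0
  · rw [h0, Nat.log_zero_right]
    norm_num
  · exact (Nat.pow_log_le_self p (by omega)).trans (Nat.le_succ _)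

/-- the core inequality -/
theorem Cor.core (h : Cor p G g u d c E) [hp : Fact p.Prime] [CharP κ p] {r C₀ : ℕ}
    (hgr : ∀ N, finrank κ (G N) ≤ C₀ * (N + 1) ^ r)
    (hφ : Function.Injective φ) (hφG : ∀ i, ∃ N, φ (X i) ∈ G N)
    (hψ : Function.Injective ψ) (hψG : ∀ i, ∃ N, ψ (X i) ∈ G N) : n + m ≤ r := by
  classical
  by_contra hlt
  push Not at hlt
  choose N hN using hφG
  choose N' hN' using hψG
  obtain ⟨Θ, h1, h2⟩ := exists_opHom φ (fun i => ψ (X i)) (fun i j => by
    rw [← map_mul, mul_comm, map_mul])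
  set c1 := (∑ i, N i) + ∑ j, N' j with hc1
  set A := (2 * c * p + 1) * (c1 + 1) with hA
  set s := C₀ * A ^ r + 1 with hs
  set T := s * c1 with hT
  obtain ⟨i, hi1, hi2⟩ := exists_pow_bound p hp.out.two_le T
  set q := c * p ^ i with hq
  have hTθ : ∀ JK, Θ (mn κ n m s JK) ∈ Op G T := by
    intro JK
    rw [mn, op_monomial h1 h2]
    refine mem_Op ?_ (h.mono_mem (φ : MvPolynomial (Fin n) κ →+* D) N hN _)
      (h.mono_mem (ψ : MvPolynomial (Fin m) (Subring.center D) →+* D) N' hN' _)
    rw [hT, hc1, mul_add, Finset.mul_sum, Finset.mul_sum]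
    refine Nat.add_le_add (Finset.sum_le_sum fun j _ => ?_) (Finset.sum_le_sum fun j _ => ?_)
    · exact Nat.mul_le_mul_right _ (JK.1 j).2.le
    · exact Nat.mul_le_mul_right _ (JK.2 j).2.le
  have hspos : 1 ≤ s := by omega
  have hqT : q + T + 1 ≤ A * s := by
    have e1 : q ≤ c * (p * (T + T + 1)) := Nat.mul_le_mul_left c hi2
    have e2 : c * (p * (T + T + 1)) + T + 1 ≤ (2 * c * p + 1) * (T + 1) := by
      have : (2 * c * p + 1) * (T + 1) = c * (p * (T + T + 1)) + T + 1 + c * p := by ring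
      omega
    have e3 : (2 * c * p + 1) * (T + 1) ≤ (2 * c * p + 1) * ((c1 + 1) * s) := by
      refine Nat.mul_le_mul_left _ ?_
      rw [hT]
      have : (c1 + 1) * s = s * c1 + s := by ring
      omega
    calc q + T + 1 ≤ (2 * c * p + 1) * ((c1 + 1) * s) := by omega
      _ = A * s := by rw [hA]; ring
  have hcard : finrank κ (G (q + T)) <
      Fintype.card ((Fin n → Fin s) × (Fin m → Fin s)) := by
    rw [Fintype.card_prod, Fintype.card_fun, Fintype.card_fun, Fintype.card_fin, Fintype.card_fin,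
      Fintype.card_fin, ← pow_add]
    calc finrank κ (G (q + T)) ≤ C₀ * (q + T + 1) ^ r := hgr _
      _ ≤ C₀ * (A * s) ^ r := Nat.mul_le_mul_left _ (Nat.pow_le_pow_left hqT r)
      _ = (C₀ * A ^ r) * s ^ r := by rw [mul_pow, mul_assoc]
      _ < s * s ^ r := by
          refine Nat.mul_lt_mul_of_pos_right ?_ (Nat.pow_pos (by omega))
          omega
      _ = s ^ (r + 1) := by rw [pow_succ, mul_comm]
      _ ≤ s ^ (n + m) := Nat.pow_le_pow_right hspos (by omega)
  obtain ⟨Q, hQ, hQT, hQk⟩ := h.exists_kill h1 (mn κ n m s) (mn_linInd κ n m s) hTθ hcard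
  have hneg := h.neg hQT hi1 le_rfl hQk
  -- a large power
  obtain ⟨i', hi'⟩ : ∃ i', E * Q.support.card < p ^ i' :=
    ⟨_, Nat.lt_pow_self hp.out.one_lt⟩
  obtain ⟨x, hx, hne⟩ := h.power_nonkill hφ hψ h1 h2 Q hQ i'
  exact hne (pow_kills hneg _ x hx _ hi')

end BI29
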