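import Pool.Agent.FD29.Homog

/-!
# Elements of large degree are combinations of `Q`-th powers of the generators
-/

set_option autoImplicit false

namespace BI29

open Finset Module FD29

section graded

variable {k A0 : Type} [Field k] [CommRing A0] [Algebra k A0] (𝒜 : ℕ → Submodule k A0)
  [GradedAlgebra 𝒜]

/-- monomials over the degree zero part -/
def PS {g : ℕ} (u0 : Fin g → A0) (d : Fin g → ℕ) (i : ℕ) : Submodule k A0 :=
  Submodule.span k {x | ∃ a ∈ 𝒜 0, ∃ J : Fin g → ℕ, ∑ j, (d j + 1) * J j = i ∧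
    x = a * ∏ j, u0 j ^ J j}

theorem exists_mon [Algebra.FiniteType k A0] :
    ∃ (g : ℕ) (u0 : Fin g → A0) (d : Fin g → ℕ), (∀ j, u0 j ∈ 𝒜 (d j + 1)) ∧
      ∀ i, 𝒜 i ≤ PS 𝒜 u0 d i := by
  classical
  obtain ⟨S, hS⟩ := (Algebra.FiniteType.out : (⊤ : Subalgebra k A0).FG)
  set I : Finset (A0 × ℕ) := S.biUnion fun x =>
    ((DirectSum.decompose 𝒜 x).support.filter (fun i => 0 < i)).image
      fun i => ((DirectSum.decompose 𝒜 x i : A0), i) with hI
  have hmemI : ∀ y ∈ I, 0 < y.2 ∧ y.1 ∈ 𝒜 y.2 := by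
    intro y hy
    rw [hI, mem_biUnion] at hy
    obtain ⟨x, _, hx⟩ := hy
    rw [mem_image] at hx
    obtain ⟨i, hi, rfl⟩ := hx
    exact ⟨(mem_filter.1 hi).2, (DirectSum.decompose 𝒜 x i).2⟩
  let e := I.equivFin
  let u0 : Fin I.card → A0 := fun j => (e.symm j : A0 × ℕ).1
  let d : Fin I.card → ℕ := fun j => (e.symm j : A0 × ℕ).2 - 1
  have hd : ∀ j, d j + 1 = (e.symm j : A0 × ℕ).2 := fun j => by
    have := (hmemI _ (e.symm j).2).1
    change (e.symm j : A0 × ℕ).2 - 1 + 1 = _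
    omega
  refine ⟨I.card, u0, d, fun j => ?_, ?_⟩
  · rw [hd]
    exact (hmemI _ (e.symm j).2).2
  · refine graded_induction 𝒜 (PS 𝒜 u0 d) ?_ ?_ (S : Set A0) hS ?_
    · refine Submodule.subset_span ⟨1, SetLike.GradedOne.one_mem, 0, ?_, ?_⟩
      · simp
      · simp
    · intro i j x y hx hy
      refine Submodule.span_induction (p := fun x _ => x * y ∈ PS 𝒜 u0 d (i + j)) ?_ ?_ ?_ ?_ hx
      · rintro _ ⟨a, ha, J, hJ, rfl⟩
        refine Submodule.span_induction
          (p := fun y _ => (a * ∏ j, u0 j ^ J j) * y ∈ PS 𝒜 u0 d (i + j)) ?_ ?_ ?_ ?_ hy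
        · rintro _ ⟨b, hb, K, hK, rfl⟩
          refine Submodule.subset_span ⟨a * b, ?_, J + K, ?_, ?_⟩
          · have := SetLike.GradedMul.mul_mem (A := 𝒜) ha hb
            rwa [add_zero] at this
          · simp only [Pi.add_apply, mul_add, Finset.sum_add_distrib, hJ, hK]
          · simp only [Pi.add_apply, pow_add, Finset.prod_mul_distrib]
            ring
        · rw [mul_zero]
          exact Submodule.zero_mem _
        · intro y z _ _ hy hz
          rw [mul_add]
          exact Submodule.add_mem _ hy hz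
        · intro c y _ hy
          rw [mul_smul_comm]
          exact Submodule.smul_mem _ _ hy
      · rw [zero_mul]
        exact Submodule.zero_mem _
      · intro y z _ _ hy hz
        rw [add_mul]
        exact Submodule.add_mem _ hy hz
      · intro c y _ hy
        rw [smul_mul_assoc]
        exact Submodule.smul_mem _ _ hy
    · intro x hx i
      rcases Nat.eq_zero_or_pos i with rfl | hi
      · refine Submodule.subset_span ⟨_, (DirectSum.decompose 𝒜 x 0).2, 0, ?_, ?_⟩
        · simp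
        · simp
      · by_cases h0 : DirectSum.decompose 𝒜 x i = 0
        · rw [h0]
          exact Submodule.zero_mem _
        · have h2 : ((DirectSum.decompose 𝒜 x i : A0), i) ∈ I := by
            rw [hI, mem_biUnion]
            exact ⟨x, hx, mem_image.2 ⟨i, mem_filter.2 ⟨DFinsupp.mem_support_iff.2 h0, hi⟩, rfl⟩⟩
          set j0 := e ⟨_, h2⟩ with hj0
          have hu : u0 j0 = (DirectSum.decompose 𝒜 x i : A0) := by
            change ((e.symm j0 : I) : A0 × ℕ).1 = _
            rw [hj0, Equiv.symm_apply_apply]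
          have hdj : d j0 + 1 = i := by
            rw [hd, hj0, Equiv.symm_apply_apply]
          refine Submodule.subset_span ⟨1, SetLike.GradedOne.one_mem, Pi.single j0 1, ?_, ?_⟩
          · rw [Finset.sum_eq_single j0]
            · rw [Pi.single_eq_same, mul_one, hdj]
            · intro j _ hj
              rw [Pi.single_eq_of_ne hj, mul_zero]
            · intro h
              exact absurd (mem_univ _) h
          · rw [one_mul, Finset.prod_eq_single j0]
            · rw [Pi.single_eq_same, pow_one, hu]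
            · intro j _ hj
              rw [Pi.single_eq_of_ne hj, pow_zero]
            · intro h
              exact absurd (mem_univ _) h

theorem exists_div0 [Algebra.FiniteType k A0] :
    ∃ (g : ℕ) (u0 : Fin g → A0) (d : Fin g → ℕ) (c : ℕ), (∀ j, u0 j ∈ 𝒜 (d j + 1)) ∧
      ∀ (Q n : ℕ), c * Q < n → ∀ x ∈ 𝒜 n, ∃ y : Fin g → A0,
        (∀ j, y j = 0 ∨ ((d j + 1) * Q ≤ n ∧ y j ∈ 𝒜 (n - (d j + 1) * Q))) ∧
          x = ∑ j, u0 j ^ Q * y j := by
  classical
  obtain ⟨g, u0, d, hu, hP⟩ := exists_mon (k := k) 𝒜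
  refine ⟨g, u0, d, ∑ j, (d j + 1), hu, fun Q n hn x hx => ?_⟩
  refine Submodule.span_induction (p := fun x _ => ∃ y : Fin g → A0,
    (∀ j, y j = 0 ∨ ((d j + 1) * Q ≤ n ∧ y j ∈ 𝒜 (n - (d j + 1) * Q))) ∧
      x = ∑ j, u0 j ^ Q * y j) ?_ ?_ ?_ ?_ (hP n hx)
  · rintro _ ⟨a, ha, J, hJ, rfl⟩
    obtain ⟨j0, hj0⟩ : ∃ j, Q ≤ J j := by
      by_contra hall
      push Not at hall
      have h1 : ∑ j, (d j + 1) * J j ≤ ∑ j, (d j + 1) * Q :=
        Finset.sum_le_sum fun j _ => Nat.mul_le_mul_left _ (hall j).le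
      rw [← Finset.sum_mul] at h1
      omega
    set J' : Fin g → ℕ := Function.update J j0 (J j0 - Q) with hJ'
    have hsum : ∑ j, (d j + 1) * J' j + (d j0 + 1) * Q = n := by
      rw [← hJ, ← Finset.add_sum_erase _ _ (mem_univ j0), ← Finset.add_sum_erase univ
        (fun j => (d j + 1) * J j) (mem_univ j0)]
      have h1 : ∑ x ∈ univ.erase j0, (d x + 1) * J' x = ∑ x ∈ univ.erase j0, (d x + 1) * J x := by
        refine Finset.sum_congr rfl fun j hj => ?_
        rw [hJ', Function.update_of_ne (Finset.ne_of_mem_erase hj)]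
      rw [h1, hJ', Function.update_self]
      have h2 : (d j0 + 1) * J j0 = (d j0 + 1) * (J j0 - Q) + (d j0 + 1) * Q := by
        rw [← mul_add, Nat.sub_add_cancel hj0]
      omega
    have hprod : ∏ j, u0 j ^ J j = u0 j0 ^ Q * ∏ j, u0 j ^ J' j := by
      rw [← Finset.mul_prod_erase _ _ (mem_univ j0), ← Finset.mul_prod_erase univ
        (fun j => u0 j ^ J' j) (mem_univ j0)]
      have h1 : ∏ x ∈ univ.erase j0, u0 x ^ J' x = ∏ x ∈ univ.erase j0, u0 x ^ J x := by
        refine Finset.prod_congr rfl fun j hj => ?_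
        rw [hJ', Function.update_of_ne (Finset.ne_of_mem_erase hj)]
      rw [h1, hJ', Function.update_self, ← mul_assoc, ← pow_add, Nat.add_sub_cancel' hj0]
    refine ⟨Pi.single j0 (a * ∏ j, u0 j ^ J' j), fun j => ?_, ?_⟩
    · by_cases hj : j = j0
      · subst hj
        refine Or.inr ⟨by omega, ?_⟩
        rw [Pi.single_eq_same]
        have h1 : ∏ j, u0 j ^ J' j ∈ 𝒜 (∑ j, J' j • (d j + 1)) :=
          SetLike.prod_pow_mem_graded 𝒜 _ _ _ (fun i _ => hu i)
        have h2 := SetLike.GradedMul.mul_mem (A := 𝒜) ha h1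
        rw [zero_add] at h2
        have h3 : ∑ j, J' j • (d j + 1) = n - (d j + 1) * Q := by
          have : ∑ j, J' j • (d j + 1) = ∑ j, (d j + 1) * J' j :=
            Finset.sum_congr rfl fun j _ => by rw [smul_eq_mul, mul_comm]
          omega
        rwa [h3] at h2
      · exact Or.inl (Pi.single_eq_of_ne hj _)
    · rw [Finset.sum_eq_single j0]
      · rw [Pi.single_eq_same, hprod]
        ring
      · intro j _ hj
        rw [Pi.single_eq_of_ne hj, mul_zero]
      · intro h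
        exact absurd (mem_univ _) h
  · exact ⟨0, fun j => Or.inl rfl, by simp⟩
  · rintro _ _ _ _ ⟨y, hy, rfl⟩ ⟨z, hz, rfl⟩
    refine ⟨y + z, fun j => ?_, ?_⟩
    · rcases hy j with h1 | ⟨h1, h2⟩
      · rcases hz j with h3 | ⟨h3, h4⟩
        · left
          rw [Pi.add_apply, h1, h3, add_zero]
        · right
          refine ⟨h3, ?_⟩
          rw [Pi.add_apply, h1, zero_add]
          exact h4
      · right
        refine ⟨h1, ?_⟩
        rw [Pi.add_apply]
        refine Submodule.add_mem _ h2 ?_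
        rcases hz j with h3 | ⟨_, h4⟩
        · rw [h3]
          exact Submodule.zero_mem _
        · exact h4
    · simp only [Pi.add_apply, mul_add, Finset.sum_add_distrib]
  · rintro t _ _ ⟨y, hy, rfl⟩
    refine ⟨t • y, fun j => ?_, ?_⟩
    · rcases hy j with h1 | ⟨h1, h2⟩
      · left
        rw [Pi.smul_apply, h1, smul_zero]
      · exact Or.inr ⟨h1, Submodule.smul_mem _ _ h2⟩
    · simp only [Pi.smul_apply, mul_smul_comm, Finset.smul_sum]

end graded

section defo

variable {k A0 A : Type} [Field k] [CommRing A0] [IsDomain A0] [Algebra k A0] [Ring A]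
  [Algebra k A] {F : ℕ → Submodule k A} {σ : ℕ → A → A0}
  {𝒜 : ℕ → Submodule k A0} [GradedAlgebra 𝒜]

theorem exists_div [Algebra.FiniteType k A0] (df : Defo 𝒜 F σ) :
    ∃ (g : ℕ) (u : Fin g → A) (d : Fin g → ℕ) (c : ℕ), (∀ j, u j ∈ F (d j + 1)) ∧
      ∀ (Q n : ℕ), c * Q < n → ∀ x ∈ F n, ∃ y : Fin g → A,
        (∀ j, y j = 0 ∨ ((d j + 1) * Q ≤ n ∧ y j ∈ F (n - (d j + 1) * Q))) ∧
          x - ∑ j, u j ^ Q * y j ∈ F (n - 1) := by
  classical
  obtain ⟨g, u0, d, c, hu0, hdiv⟩ := exists_div0 (k := k) 𝒜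
  have h := df.filt
  have hsel : ∀ j, ∃ a ∈ F (d j + 1), σ (d j + 1) a = u0 j := fun j => df.surj _ _ (hu0 j)
  choose u hu huσ using hsel
  refine ⟨g, u, d, c, hu, fun Q n hn x hx => ?_⟩
  obtain ⟨y0, hy0, hxy⟩ := hdiv Q n hn _ (df.mem n x hx)
  have hsel2 : ∀ j, ∃ a : A, (a = 0 ∨ ((d j + 1) * Q ≤ n ∧ a ∈ F (n - (d j + 1) * Q))) ∧
      (u j ^ Q * a ∈ F n) ∧ σ n (u j ^ Q * a) = u0 j ^ Q * y0 j := by
    intro j
    rcases hy0 j with h0 | ⟨h1, h2⟩
    · refine ⟨0, Or.inl rfl, ?_, ?_⟩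
      · rw [mul_zero]
        exact Submodule.zero_mem _
      · rw [mul_zero, h.sym_zero, h0, mul_zero]
    · obtain ⟨a, ha, haσ⟩ := df.surj _ _ h2
      have h3 := h.pow_mem (hu j) Q
      have h4 := h.mul _ _ _ _ h3 ha
      have h5 : Q * (d j + 1) + (n - (d j + 1) * Q) = n := by
        rw [mul_comm Q]
        omega
      have h6 := h.sym_mul _ _ _ _ h3 ha
      rw [h5] at h4 h6
      exact ⟨a, Or.inr ⟨h1, ha⟩, h4, by rw [h6, h.sym_pow (hu j), huσ, haσ]⟩
  choose y hy hyF hyσ using hsel2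
  refine ⟨y, hy, ?_⟩
  obtain ⟨n', rfl⟩ : ∃ n', n = n' + 1 := ⟨n - 1, by omega⟩
  have hsF : ∑ j, u j ^ Q * y j ∈ F (n' + 1) := Submodule.sum_mem _ fun j _ => hyF j
  refine (h.ker n' _ (Submodule.sub_mem _ hx hsF)).1 ?_
  rw [h.sym_sub _ _ _ hx hsF, h.sym_sum _ _ _ (fun j _ => hyF j), hxy,
    Finset.sum_congr rfl fun j _ => hyσ j, sub_self]

end defo

end BI29
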