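import Mathlib

/-!
# Commuting families of matrices with more members than rows: a generic kernel vector

Let `a i : V → W` and `b i : W → Z` be families of linear maps, indexed by a finite set with more
than `dim W` elements, with `b i ∘ a j = b j ∘ a i`. Some nonzero polynomial combination
`P = ∑ P i ⊗ a i` kills the generic vector of `V`; differentiating, `P ∘ P` kills `V`.
-/

set_option autoImplicit false

namespace BI29

open Finset MvPolynomial

/-- the formal computation -/
theorem square_kills {Λ ι : Type} [CommRing Λ] [Fintype ι] {v w z : ℕ}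
    (A : ι → Matrix (Fin w) (Fin v) Λ) (B : ι → Matrix (Fin z) (Fin w) Λ)
    (hc : ∀ i j, B i * A j = B j * A i) (P : ι → Λ) (x y : Fin v → Λ)
    (hx : ∑ i, P i • (A i).mulVec x = 0) (P' : ι → Λ)
    (hy : ∑ i, P i • (A i).mulVec y = - ∑ i, P' i • (A i).mulVec x) :
    ∑ i, ∑ j, (P i * P j) • (B i * A j).mulVec y = 0 := by
  have e1 : ∑ i, ∑ j, (P i * P j) • (B i * A j).mulVec y =
      ∑ i, P i • (B i).mulVec (∑ j, P j • (A j).mulVec y) := by
    refine Finset.sum_congr rfl fun i _ => ?_
    rw [Matrix.mulVec_sum, Finset.smul_sum]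
    refine Finset.sum_congr rfl fun j _ => ?_
    rw [Matrix.mulVec_smul, Matrix.mulVec_mulVec, mul_smul]
  have e2 : ∑ i, P i • (B i).mulVec (∑ j, P' j • (A j).mulVec x) =
      ∑ j, P' j • (B j).mulVec (∑ i, P i • (A i).mulVec x) := by
    simp only [Matrix.mulVec_sum, Finset.smul_sum, Matrix.mulVec_smul, Matrix.mulVec_mulVec]
    rw [Finset.sum_comm]
    refine Finset.sum_congr rfl fun j _ => Finset.sum_congr rfl fun i _ => ?_
    rw [hc i j, smul_smul, smul_smul, mul_comm]
  rw [e1, hy]
  simp only [Matrix.mulVec_neg, smul_neg, Finset.sum_neg_distrib]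
  rw [e2, hx]
  simp

theorem generic {κ ι : Type} [Field κ] [Fintype ι] {v w z : ℕ}
    (a : ι → Matrix (Fin w) (Fin v) κ) (b : ι → Matrix (Fin z) (Fin w) κ)
    (hc : ∀ i j, b i * a j = b j * a i) (hcard : w < Fintype.card ι) :
    ∃ P : ι → MvPolynomial (Fin v) κ, P ≠ 0 ∧
      ∀ (s : Fin z) (t : Fin v), ∑ i, ∑ j, P i * P j * C ((b i * a j) s t) = 0 := by
  classical
  set A : ι → Matrix (Fin w) (Fin v) (MvPolynomial (Fin v) κ) := fun i => (a i).map C with hA
  set B : ι → Matrix (Fin z) (Fin w) (MvPolynomial (Fin v) κ) := fun i => (b i).map C with hB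
  let L : (ι → MvPolynomial (Fin v) κ) →ₗ[MvPolynomial (Fin v) κ]
      (Fin w → MvPolynomial (Fin v) κ) :=
    { toFun := fun P => ∑ i, P i • (A i).mulVec X
      map_add' := fun P Q => by
        simp only [Pi.add_apply, add_smul, Finset.sum_add_distrib]
      map_smul' := fun c P => by
        simp only [Pi.smul_apply, smul_eq_mul, RingHom.id_apply, Finset.smul_sum, mul_smul] }
  have hL : ¬ Function.Injective L := fun hinj => by
    have := card_le_of_injective (MvPolynomial (Fin v) κ) L hinj
    rw [Fintype.card_fin] at this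
    omega
  have hex : ∃ P, L P = 0 ∧ P ≠ 0 := by
    by_contra hne
    push Not at hne
    exact hL ((injective_iff_map_eq_zero L).2 hne)
  obtain ⟨P, hP, hP0⟩ := hex
  have hE : ∑ i, P i • (A i).mulVec X = 0 := hP
  have hAB : ∀ i j, B i * A j = B j * A i := fun i j => by
    rw [hA, hB]
    simp only
    rw [← Matrix.map_mul, ← Matrix.map_mul, hc]
  refine ⟨P, hP0, fun s t => ?_⟩
  have hy : ∑ i, P i • (A i).mulVec (Pi.single t 1) =
      - ∑ i, pderiv t (P i) • (A i).mulVec X := by
    funext l
    have h1 := congrArg (pderiv t) (congrFun hE l)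
    simp only [Finset.sum_apply, Pi.smul_apply, smul_eq_mul, Pi.zero_apply, map_zero,
      map_sum, Pi.neg_apply] at h1 ⊢
    have h2 : ∀ i, pderiv t (P i * (A i).mulVec X l) =
        P i * (A i).mulVec (Pi.single t 1) l + pderiv t (P i) * (A i).mulVec X l := by
      intro i
      rw [pderiv_mul, add_comm]
      congr 2
      rw [Matrix.mulVec_single_one]
      simp only [Matrix.mulVec, dotProduct, Matrix.col_apply]
      rw [map_sum, Finset.sum_eq_single t]
      · rw [hA]
        simp only [Matrix.map_apply]
        rw [pderiv_C_mul, pderiv_X_self, mul_one]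
      · intro t' _ ht
        rw [hA]
        simp only [Matrix.map_apply]
        rw [pderiv_C_mul, pderiv_X_of_ne ht, mul_zero]
      · intro h
        exact absurd (mem_univ t) h
    rw [Finset.sum_congr rfl fun i _ => h2 i, Finset.sum_add_distrib] at h1
    exact eq_neg_of_add_eq_zero_left h1
  have h3 := square_kills A B hAB P X (Pi.single t 1) hE (fun i => pderiv t (P i)) hy
  have h4 := congrFun h3 s
  simp only [Finset.sum_apply, Pi.smul_apply, smul_eq_mul, Pi.zero_apply] at h4
  rw [← h4]
  refine Finset.sum_congr rfl fun i _ => Finset.sum_congr rfl fun j _ => ?_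
  rw [Matrix.mulVec_single_one, Matrix.col_apply, hA, hB]
  simp only
  rw [← Matrix.map_mul, Matrix.map_apply]

end BI29
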