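import Mathlib

/-!
# Operators of small length on a division ring cannot kill a large piece of the filtration

`D` is a division ring with an increasing filtration `G`; elements of `G E` generate. If
`b i` (`i` in a finite set of `n` elements) are linearly independent over the centre and the `a i`
are not all zero, then `∑ a i * x * b i ≠ 0` for some `x` in `G (E * n)`.
-/

set_option autoImplicit false

namespace BI29

open Finset Module

section

variable {D ι : Type} [DivisionRing D] [Fintype ι]

/-- a left subspace of `D^ι`, stable under right multiplication, contains a central vector -/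
theorem exists_central_vector (V : Submodule D (ι → D)) (hV : V ≠ ⊥)
    (hst : ∀ (y : D), ∀ d ∈ V, (fun i => d i * y) ∈ V) :
    ∃ d ∈ V, d ≠ 0 ∧ ∀ i, d i ∈ Subring.center D := by
  classical
  obtain ⟨d0, hd0, hd0'⟩ := Submodule.exists_mem_ne_zero_of_ne_bot hV
  let P : ℕ → Prop := fun n => ∃ d ∈ V, d ≠ 0 ∧ (univ.filter (fun i => d i ≠ 0)).card = n
  have hP : ∃ n, P n := ⟨_, d0, hd0, hd0', rfl⟩
  obtain ⟨d, hd, hdne, hcard⟩ := Nat.find_spec hP
  have hmin : ∀ d' ∈ V, (univ.filter (fun i => d' i ≠ 0)).card <
      (univ.filter (fun i => d i ≠ 0)).card → d' = 0 := by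
    intro d' hd' hlt
    by_contra hne
    rw [hcard] at hlt
    exact Nat.find_min hP hlt ⟨d', hd', hne, rfl⟩
  obtain ⟨i0, hi0⟩ : ∃ i, d i ≠ 0 := by
    by_contra hall
    push Not at hall
    exact hdne (funext hall)
  refine ⟨(d i0)⁻¹ • d, V.smul_mem _ hd, ?_, ?_⟩
  · intro h0
    have := congrFun h0 i0
    simp only [Pi.smul_apply, smul_eq_mul, Pi.zero_apply] at this
    rw [inv_mul_cancel₀ hi0] at this
    exact one_ne_zero this
  · intro i
    rw [Subring.mem_center_iff]
    intro y
    set d' : ι → D := (d i0)⁻¹ • d with hd'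
    have hd'V : d' ∈ V := V.smul_mem _ hd
    have h1 : y • d' - (fun i => d' i * y) ∈ V := V.sub_mem (V.smul_mem _ hd'V) (hst y d' hd'V)
    have h2 : y • d' - (fun i => d' i * y) = 0 := by
      apply hmin _ h1
      apply Finset.card_lt_card
      rw [Finset.ssubset_iff_of_subset]
      · refine ⟨i0, by simpa using hi0, ?_⟩
        simp only [mem_filter, mem_univ, true_and, not_not, Pi.sub_apply, Pi.smul_apply,
          smul_eq_mul, hd']
        rw [inv_mul_cancel₀ hi0, mul_one, one_mul, sub_self]
      · intro j hj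
        simp only [mem_filter, mem_univ, true_and] at hj ⊢
        intro h0
        apply hj
        simp only [Pi.sub_apply, Pi.smul_apply, smul_eq_mul, hd', h0, mul_zero, zero_mul, sub_self]
    have h3 := congrFun h2 i
    simp only [Pi.sub_apply, Pi.smul_apply, smul_eq_mul, Pi.zero_apply] at h3
    rw [sub_eq_zero] at h3
    exact h3

variable (G : ℕ → Set D)

/-- the coefficient vectors of the operators killing `G s` -/
def Wk (b : ι → D) (s : ℕ) : Submodule D (ι → D) where
  carrier := {d | ∀ x ∈ G s, ∑ i, d i * x * b i = 0}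
  add_mem' := by
    intro d d' hd hd' x hx
    simp only [Pi.add_apply, add_mul, Finset.sum_add_distrib]
    rw [hd x hx, hd' x hx, add_zero]
  zero_mem' := by
    intro x _
    simp
  smul_mem' := by
    intro c d hd x hx
    simp only [Pi.smul_apply, smul_eq_mul, mul_assoc, ← Finset.mul_sum]
    simp only [mul_assoc] at hd
    rw [hd x hx, mul_zero]

theorem mem_Wk {b : ι → D} {s : ℕ} {d : ι → D} :
    d ∈ Wk G b s ↔ ∀ x ∈ G s, ∑ i, d i * x * b i = 0 := Iff.rfl

theorem exists_nonkill (hone : (1 : D) ∈ G 0) (hmono : Monotone G) (E : ℕ)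
    (hmul : ∀ (s : ℕ) (x y : D), x ∈ G E → y ∈ G s → x * y ∈ G (s + E))
    (hgen : ∀ V : Submodule D (ι → D), (∀ y ∈ G E, ∀ d ∈ V, (fun i => d i * y) ∈ V) →
      ∀ (y : D), ∀ d ∈ V, (fun i => d i * y) ∈ V)
    (b : ι → D) (hb : LinearIndependent (Subring.center D) b) (a : ι → D) (ha : a ≠ 0) :
    ∃ x ∈ G (E * Fintype.card ι), ∑ i, a i * x * b i ≠ 0 := by
  classical
  by_contra hall
  push Not at hall
  set n := Fintype.card ι with hn
  have haW : a ∈ Wk G b (E * n) := hall
  let f : ℕ → ℕ := fun j => finrank D (Wk G b (E * j))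
  have hanti : ∀ i j, i ≤ j → Wk G b (E * j) ≤ Wk G b (E * i) := by
    intro i j hij d hd x hx
    exact hd x (hmono (Nat.mul_le_mul_left E hij) hx)
  have hpos : ∀ j ≤ n, 1 ≤ f j := by
    intro j hj
    have h1 : a ∈ Wk G b (E * j) := hanti j n hj haW
    rw [Nat.one_le_iff_ne_zero]
    intro h0
    have h2 : Wk G b (E * j) = ⊥ := Submodule.finrank_eq_zero.1 h0
    rw [h2, Submodule.mem_bot] at h1
    exact ha h1
  have hnpos : 0 < n := by
    rcases Nat.eq_zero_or_pos n with h0 | h0
    · exfalso
      apply ha
      haveI := Fintype.card_eq_zero_iff.1 (hn ▸ h0 : Fintype.card ι = 0)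
      exact funext fun i => (IsEmpty.false i).elim
    · exact h0
  have hb0 : ∀ i, b i ≠ 0 := fun i => hb.ne_zero i
  have hlt0 : f 0 < n := by
    have h1 : Wk G b (E * 0) ≠ ⊤ := by
      intro htop
      haveI : Nonempty ι := Fintype.card_pos_iff.1 hnpos
      obtain ⟨i⟩ : Nonempty ι := inferInstance
      have h2 : (Pi.single i 1 : ι → D) ∈ Wk G b (E * 0) := by
        rw [htop]
        trivial
      have h3 := h2 1 hone
      rw [Finset.sum_eq_single i] at h3
      · rw [Pi.single_eq_same, one_mul, one_mul] at h3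
        exact hb0 i h3
      · intro j _ hj
        rw [Pi.single_eq_of_ne hj, zero_mul, zero_mul]
      · intro h4
        exact absurd (mem_univ i) h4
    have h2 := Submodule.finrank_lt h1
    rwa [finrank_pi] at h2
  -- a plateau
  obtain ⟨i, hi, hieq⟩ : ∃ i < n, f i = f (i + 1) := by
    by_contra hno
    push Not at hno
    have hdec : ∀ j ≤ n, f j + j ≤ f 0 := by
      intro j
      induction j with
      | zero => intro _; exact le_rfl
      | succ j ih =>
        intro hj
        have h1 := ih (by omega)
        have h2 : f (j + 1) ≤ f j := Submodule.finrank_mono (hanti j (j + 1) (Nat.le_succ j))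
        have h3 := hno j (by omega)
        omega
    have h1 := hdec n le_rfl
    have h2 := hpos n le_rfl
    omega
  set V := Wk G b (E * i) with hVdef
  have hVeq : Wk G b (E * (i + 1)) = V :=
    Submodule.eq_of_le_of_finrank_eq (hanti i (i + 1) (Nat.le_succ i)) hieq.symm
  have hVne : V ≠ ⊥ := by
    intro h0
    have := hpos i hi.le
    change 1 ≤ finrank D V at this
    rw [h0, finrank_bot] at this
    omega
  have hVst : ∀ y ∈ G E, ∀ d ∈ V, (fun i => d i * y) ∈ V := by
    intro y hy d hd x hx
    rw [← hVeq] at hd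
    have h1 := hmul _ y x hy hx
    have h2 := hd (y * x) (by
      have : E * (i + 1) = E * i + E := by ring
      rw [this]
      exact h1)
    simpa only [mul_assoc] using h2
  obtain ⟨d, hd, hdne, hdc⟩ := exists_central_vector V hVne (hgen V hVst)
  have h1 := hd 1 (hmono (Nat.zero_le _) hone)
  have h2 := Fintype.linearIndependent_iff.1 hb (fun i => ⟨d i, hdc i⟩) (by
    rw [← h1]
    refine Finset.sum_congr rfl fun i _ => ?_
    rw [mul_one]
    rfl)
  apply hdne
  funext i
  exact congrArg Subtype.val (h2 i)

end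

end BI29
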