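import Pool.Agent.BI29.Length

/-!
# Filtered division rings, operators of bounded norm, and negativity
-/

set_option autoImplicit false

namespace BI29

open Finset Module

variable {κ D : Type} [Field κ] [DivisionRing D] [Algebra κ D]

/-- the data used in the core argument -/
structure Cor (p : ℕ) (G : ℕ → Submodule κ D) (g : ℕ) (u : Fin g → D) (d : Fin g → ℕ)
    (c E : ℕ) : Prop where
  mono : Monotone G
  one : (1 : D) ∈ G 0
  mul : ∀ (s t : ℕ) (x y : D), x ∈ G s → y ∈ G t → x * y ∈ G (s + t)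
  fin : ∀ m, FiniteDimensional κ (G m)
  umem : ∀ j, u j ∈ G (d j + 1)
  comm : ∀ (j : Fin g) (i n : ℕ) (x : D), x ∈ G n →
    u j ^ p ^ i * x - x * u j ^ p ^ i ∈ G (n + p ^ i * d j)
  div : ∀ (Q n : ℕ), c * Q < n → ∀ x ∈ G n, ∃ y : Fin g → D,
    (∀ j, y j = 0 ∨ ((d j + 1) * Q ≤ n ∧ y j ∈ G (n - (d j + 1) * Q))) ∧
      x - ∑ j, u j ^ Q * y j ∈ G (n - 1)
  gen : ∀ (n : ℕ) (x : D), x ∈ G n → x ∈ Algebra.adjoin κ (G E : Set D)
  frac : ∀ z : D, ∃ (n : ℕ) (a b : D), a ∈ G n ∧ b ∈ G n ∧ b ≠ 0 ∧ z * b = a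

variable {p : ℕ} {G : ℕ → Submodule κ D} {g : ℕ} {u : Fin g → D} {d : Fin g → ℕ} {c E : ℕ}

theorem Cor.pow_mem (h : Cor p G g u d c E) {s : ℕ} {x : D} (hx : x ∈ G s) (n : ℕ) :
    x ^ n ∈ G (n * s) := by
  induction n with
  | zero => simpa using h.one
  | succ n ih =>
    rw [pow_succ, Nat.succ_mul]
    exact h.mul _ _ _ _ ih hx

/-- right multiplication on `D^ι`, linear over `D` on the left -/
def rmul {ι : Type} (D : Type) [DivisionRing D] (b : D) : (ι → D) →ₗ[D] (ι → D) where
  toFun d := fun i => d i * b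
  map_add' x y := by
    funext i
    simp only [Pi.add_apply, add_mul]
  map_smul' c x := by
    funext i
    simp only [Pi.smul_apply, smul_eq_mul, RingHom.id_apply, mul_assoc]

theorem Cor.hgen (h : Cor p G g u d c E) {ι : Type} [Fintype ι] (V : Submodule D (ι → D))
    (hst : ∀ y ∈ G E, ∀ d ∈ V, (fun i => d i * y) ∈ V) (y : D) :
    ∀ d ∈ V, (fun i => d i * y) ∈ V := by
  have h1 : ∀ y ∈ Algebra.adjoin κ (G E : Set D), ∀ d ∈ V, (fun i => d i * y) ∈ V := by
    intro y hy
    refine Algebra.adjoin_induction (p := fun y _ => ∀ d ∈ V, (fun i => d i * y) ∈ V)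
      (fun b hb => hst b hb) ?_ ?_ ?_ hy
    · intro t d hd
      have : (fun i => d i * (algebraMap κ D) t) = (algebraMap κ D t) • d := by
        funext i
        rw [Pi.smul_apply, smul_eq_mul, Algebra.commutes]
      rw [this]
      exact V.smul_mem _ hd
    · intro a b _ _ ha hb d hd
      have : (fun i => d i * (a + b)) = (fun i => d i * a) + (fun i => d i * b) := by
        funext i
        simp only [Pi.add_apply, mul_add]
      rw [this]
      exact V.add_mem (ha d hd) (hb d hd)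
    · intro a b _ _ ha hb d hd
      have := hb _ (ha d hd)
      simpa only [mul_assoc] using this
  obtain ⟨n, a, b, ha, hb, hb0, hz⟩ := h.frac y
  intro d hd
  have hbV := h1 b (h.gen n b hb)
  have haV := h1 a (h.gen n a ha)
  let T : V →ₗ[D] V := (rmul D b).restrict hbV
  have hinj : Function.Injective T := by
    intro x y hxy
    apply Subtype.ext
    funext i
    have h2 := congrFun (congrArg Subtype.val hxy) i
    change (x : ι → D) i * b = (y : ι → D) i * b at h2
    exact mul_right_cancel₀ hb0 h2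
  have hsurj := LinearMap.injective_iff_surjective.1 hinj
  obtain ⟨d', hd'⟩ := hsurj ⟨_, haV d hd⟩
  have h3 : (fun i => d i * y) = (d' : ι → D) := by
    funext i
    have h4 := congrFun (congrArg Subtype.val hd') i
    change (d' : ι → D) i * b = d i * a at h4
    rw [← hz, ← mul_assoc] at h4
    exact (mul_right_cancel₀ hb0 h4).symm
  rw [h3]
  exact d'.2

theorem Cor.nonkill (h : Cor p G g u d c E) {ι : Type} [Fintype ι] (b : ι → D)
    (hb : LinearIndependent (Subring.center D) b) (a : ι → D) (ha : a ≠ 0) :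
    ∃ x ∈ G (E * Fintype.card ι), ∑ i, a i * x * b i ≠ 0 :=
  exists_nonkill (fun s => (G s : Set D)) h.one (fun _ _ hij => h.mono hij) E
    (fun s x y hx hy => by
      rw [add_comm]
      exact h.mul _ _ _ _ hx hy)
    (fun V hV y d hd => h.hgen V hV y d hd) b hb a ha

/-- operators of norm at most `T` -/
def Op (G : ℕ → Submodule κ D) (T : ℕ) : Submodule κ (Module.End κ D) :=
  Submodule.span κ {Θ | ∃ (s t : ℕ) (a b : D), s + t ≤ T ∧ a ∈ G s ∧ b ∈ G t ∧
    Θ = LinearMap.mulLeft κ a * LinearMap.mulRight κ b}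

theorem mem_Op {T s t : ℕ} {a b : D} (hst : s + t ≤ T) (ha : a ∈ G s) (hb : b ∈ G t) :
    LinearMap.mulLeft κ a * LinearMap.mulRight κ b ∈ Op G T :=
  Submodule.subset_span ⟨s, t, a, b, hst, ha, hb, rfl⟩

theorem Op_mono {T T' : ℕ} (hT : T ≤ T') : Op G T ≤ Op G T' := by
  apply Submodule.span_mono
  rintro Θ ⟨s, t, a, b, hst, ha, hb, rfl⟩
  exact ⟨s, t, a, b, hst.trans hT, ha, hb, rfl⟩

theorem Cor.op_apply (h : Cor p G g u d c E) {T : ℕ} {Θ : Module.End κ D} (hΘ : Θ ∈ Op G T)
    {n : ℕ} {x : D} (hx : x ∈ G n) : Θ x ∈ G (n + T) := by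
  refine Submodule.span_induction (p := fun Θ _ => Θ x ∈ G (n + T)) ?_ ?_ ?_ ?_ hΘ
  · rintro _ ⟨s, t, a, b, hst, ha, hb, rfl⟩
    have h1 := h.mul _ _ _ _ (h.mul _ _ _ _ ha hx) hb
    refine h.mono (by omega : s + n + t ≤ n + T) ?_
    rw [Module.End.mul_apply, LinearMap.mulLeft_apply, LinearMap.mulRight_apply, ← mul_assoc]
    exact h1
  · exact Submodule.zero_mem _
  · intro y z _ _ hy hz
    exact Submodule.add_mem _ hy hz
  · intro t y _ hy
    exact Submodule.smul_mem _ _ hy

theorem Cor.op_mul (h : Cor p G g u d c E) {T T' : ℕ} {Θ Θ' : Module.End κ D}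
    (hΘ : Θ ∈ Op G T) (hΘ' : Θ' ∈ Op G T') : Θ * Θ' ∈ Op G (T + T') := by
  refine Submodule.span_induction (p := fun Θ _ => Θ * Θ' ∈ Op G (T + T')) ?_ ?_ ?_ ?_ hΘ
  · rintro _ ⟨s, t, a, b, hst, ha, hb, rfl⟩
    refine Submodule.span_induction
      (p := fun Θ' _ => LinearMap.mulLeft κ a * LinearMap.mulRight κ b * Θ' ∈ Op G (T + T'))
      ?_ ?_ ?_ ?_ hΘ'
    · rintro _ ⟨s', t', a', b', hst', ha', hb', rfl⟩
      have h1 : LinearMap.mulLeft κ a * LinearMap.mulRight κ b *
          (LinearMap.mulLeft κ a' * LinearMap.mulRight κ b') =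
          LinearMap.mulLeft κ (a * a') * LinearMap.mulRight κ (b' * b) := by
        ext x
        simp only [Module.End.mul_apply, LinearMap.mulLeft_apply, LinearMap.mulRight_apply,
          mul_assoc]
      rw [h1]
      exact mem_Op (by omega) (h.mul _ _ _ _ ha ha') (h.mul _ _ _ _ hb' hb)
    · rw [mul_zero]
      exact Submodule.zero_mem _
    · intro y z _ _ hy hz
      rw [mul_add]
      exact Submodule.add_mem _ hy hz
    · intro t y _ hy
      rw [mul_smul_comm]
      exact Submodule.smul_mem _ _ hy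
  · rw [zero_mul]
    exact Submodule.zero_mem _
  · intro y z _ _ hy hz
    rw [add_mul]
    exact Submodule.add_mem _ hy hz
  · intro t y _ hy
    rw [smul_mul_assoc]
    exact Submodule.smul_mem _ _ hy

theorem Cor.op_comm (h : Cor p G g u d c E) {T : ℕ} {Θ : Module.End κ D} (hΘ : Θ ∈ Op G T)
    (j : Fin g) (i : ℕ) {n : ℕ} {x : D} (hx : x ∈ G n) :
    u j ^ p ^ i * Θ x - Θ (u j ^ p ^ i * x) ∈ G (n + T + p ^ i * d j) := by
  refine Submodule.span_induction
    (p := fun Θ _ => u j ^ p ^ i * Θ x - Θ (u j ^ p ^ i * x) ∈ G (n + T + p ^ i * d j))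
    ?_ ?_ ?_ ?_ hΘ
  · rintro _ ⟨s, t, a, b, hst, ha, hb, rfl⟩
    have h1 := h.mul _ _ _ _ (h.mul _ _ _ _ (h.comm j i s a ha) hx) hb
    refine h.mono (by omega : s + p ^ i * d j + n + t ≤ n + T + p ^ i * d j) ?_
    simp only [Module.End.mul_apply, LinearMap.mulLeft_apply, LinearMap.mulRight_apply]
    have h2 : u j ^ p ^ i * (a * (x * b)) - a * (u j ^ p ^ i * x * b) =
        (u j ^ p ^ i * a - a * u j ^ p ^ i) * x * b := by
      simp only [sub_mul, mul_assoc]
    rw [h2]
    exact h1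
  · simp
  · intro y z _ _ hy hz
    have h1 : u j ^ p ^ i * (y + z) x - (y + z) (u j ^ p ^ i * x) =
        (u j ^ p ^ i * y x - y (u j ^ p ^ i * x)) +
          (u j ^ p ^ i * z x - z (u j ^ p ^ i * x)) := by
      simp only [LinearMap.add_apply, mul_add]
      abel
    rw [h1]
    exact Submodule.add_mem _ hy hz
  · intro t y _ hy
    have h1 : u j ^ p ^ i * (t • y) x - (t • y) (u j ^ p ^ i * x) =
        t • (u j ^ p ^ i * y x - y (u j ^ p ^ i * x)) := by
      simp only [LinearMap.smul_apply, smul_sub, mul_smul_comm]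
    rw [h1]
    exact Submodule.smul_mem _ _ hy

/-- the shifted filtration -/
def Gs (G : ℕ → Submodule κ D) : ℕ → Submodule κ D
  | 0 => ⊥
  | n + 1 => G n

theorem Cor.Gs_mono (h : Cor p G g u d c E) : Monotone (Gs G) := by
  apply monotone_nat_of_le_succ
  intro n
  rcases n with _ | n
  · exact bot_le
  · exact h.mono (Nat.le_succ n)

theorem Cor.mul_Gs (h : Cor p G g u d c E) {s n : ℕ} {x y : D} (hx : x ∈ G s)
    (hy : y ∈ Gs G n) : x * y ∈ Gs G (s + n) := by
  rcases n with _ | n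
  · rw [Gs, Submodule.mem_bot] at hy
    rw [hy, mul_zero]
    exact Submodule.zero_mem _
  · exact h.mul _ _ _ _ hx hy

/-- an operator which kills a large piece of the filtration is negative -/
theorem Cor.neg (h : Cor p G g u d c E) {Θ : Module.End κ D} {T q i : ℕ} (hΘ : Θ ∈ Op G T)
    (hT : T < p ^ i) (hq : c * p ^ i ≤ q) (hk : ∀ x ∈ G q, Θ x = 0) :
    ∀ n, ∀ x ∈ G n, Θ x ∈ Gs G n := by
  intro n
  induction n using Nat.strong_induction_on with
  | _ n ih =>
    intro x hx
    rcases le_or_gt n q with hn | hn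
    · rw [hk x (h.mono hn hx)]
      exact Submodule.zero_mem _
    · obtain ⟨y, hy, hxy⟩ := h.div (p ^ i) n (lt_of_le_of_lt hq hn) x hx
      obtain ⟨n', rfl⟩ : ∃ n', n = n' + 1 := ⟨n - 1, by omega⟩
      have h1 : Θ x = Θ (x - ∑ j, u j ^ p ^ i * y j) + ∑ j, Θ (u j ^ p ^ i * y j) := by
        rw [map_sub, map_sum, sub_add_cancel]
      rw [h1]
      refine Submodule.add_mem _ ?_ (Submodule.sum_mem _ fun j _ => ?_)
      · rw [Nat.add_sub_cancel] at hxy
        exact h.Gs_mono (Nat.le_succ n') (ih n' (Nat.lt_succ_self n') _ hxy)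
      · rcases hy j with h0 | ⟨hle, hyj⟩
        · rw [h0, mul_zero, map_zero]
          exact Submodule.zero_mem _
        · set m := n' + 1 - (d j + 1) * p ^ i with hm
          have hpos : 0 < p ^ i := by omega
          have hmlt : m < n' + 1 := by
            have : 0 < (d j + 1) * p ^ i := by positivity
            omega
          have h2 := ih m hmlt _ hyj
          have h3 := h.mul_Gs (h.pow_mem (h.umem j) (p ^ i)) h2
          have h4 := h.op_comm hΘ j i hyj
          have h5 : Θ (u j ^ p ^ i * y j) = u j ^ p ^ i * Θ (y j) -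
              (u j ^ p ^ i * Θ (y j) - Θ (u j ^ p ^ i * y j)) := by abel
          rw [h5]
          refine Submodule.sub_mem _ ?_ ?_
          · refine h.Gs_mono ?_ h3
            rw [mul_comm (p ^ i)]
            omega
          · refine h.mono (?_ : m + T + p ^ i * d j ≤ n') h4
            have : (d j + 1) * p ^ i = p ^ i * d j + p ^ i := by ring
            omega

theorem pow_kills {Θ : Module.End κ D} (hΘ : ∀ n, ∀ x ∈ G n, Θ x ∈ Gs G n) (n : ℕ) :
    ∀ x ∈ G n, ∀ j, n < j → (Θ ^ j) x = 0 := by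
  induction n with
  | zero =>
    intro x hx j hj
    obtain ⟨j, rfl⟩ : ∃ j', j = j' + 1 := ⟨j - 1, by omega⟩
    have h1 : Θ x = 0 := by simpa [Gs] using hΘ 0 x hx
    rw [pow_succ, Module.End.mul_apply, h1, map_zero]
  | succ n ih =>
    intro x hx j hj
    obtain ⟨j, rfl⟩ : ∃ j', j = j' + 1 := ⟨j - 1, by omega⟩
    rw [pow_succ, Module.End.mul_apply]
    exact ih _ (hΘ (n + 1) x hx) j (by omega)

end BI29
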