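import Pool.Agent.BI29.Ops
import Pool.Agent.BI29.Generic

/-!
# The operators attached to two commuting families
-/

set_option autoImplicit false

namespace BI29

open Finset Module MvPolynomial

theorem exists_square {κ U ι : Type} [Field κ] [CommRing U] [IsDomain U] [Algebra κ U] [Fintype ι]
    {v : ℕ} (θ : ι → U) (hθ : LinearIndependent κ θ) (P : ι → MvPolynomial (Fin v) κ)
    (hP : P ≠ 0) :
    ∃ μ : Fin v →₀ ℕ, ∑ i, ∑ j, (coeff μ (P i * P j)) • (θ i * θ j) ≠ 0 := by
  classical
  set R : MvPolynomial (Fin v) U := ∑ i, C (θ i) * map (algebraMap κ U) (P i) with hR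
  have hR0 : R ≠ 0 := by
    intro h0
    apply hP
    funext i
    ext μ
    have h1 := congrArg (coeff μ) h0
    rw [hR, coeff_sum, coeff_zero] at h1
    have h2 := Fintype.linearIndependent_iff.1 hθ (fun i => coeff μ (P i)) (by
      rw [← h1]
      refine Finset.sum_congr rfl fun i _ => ?_
      rw [coeff_C_mul, coeff_map, Algebra.smul_def, mul_comm])
    rw [Pi.zero_apply, coeff_zero]
    exact h2 i
  have hRR : R * R ≠ 0 := mul_ne_zero hR0 hR0
  obtain ⟨μ, hμ⟩ := MvPolynomial.ne_zero_iff.1 hRR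
  refine ⟨μ, fun h0 => hμ ?_⟩
  rw [← h0, hR, Finset.sum_mul_sum, coeff_sum]
  refine Finset.sum_congr rfl fun i _ => ?_
  rw [coeff_sum]
  refine Finset.sum_congr rfl fun j _ => ?_
  have h1 : C (θ i) * map (algebraMap κ U) (P i) * (C (θ j) * map (algebraMap κ U) (P j)) =
      C (θ i * θ j) * map (algebraMap κ U) (P i * P j) := by
    rw [map_mul, map_mul]
    ring
  rw [h1, coeff_C_mul, coeff_map, Algebra.smul_def, mul_comm]

variable {κ D : Type} [Field κ] [DivisionRing D] [Algebra κ D]

theorem exists_opHom {n m : ℕ} (φ : MvPolynomial (Fin n) κ →ₐ[κ] D) (v : Fin m → D)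
    (hv : ∀ i j, v i * v j = v j * v i) :
    ∃ Θ : MvPolynomial (Fin m) (MvPolynomial (Fin n) κ) →+* Module.End κ D,
      (∀ P, Θ (C P) = LinearMap.mulLeft κ (φ P)) ∧
      ∀ i, Θ (X i) = LinearMap.mulRight κ (v i) := by
  classical
  set S : Set (Module.End κ D) := Set.range (fun P => LinearMap.mulLeft κ (φ P)) ∪
    Set.range (fun i => LinearMap.mulRight κ (v i)) with hS
  have hcomm : ∀ x ∈ S, ∀ y ∈ S, x * y = y * x := by
    rintro _ (⟨P, rfl⟩ | ⟨i, rfl⟩) _ (⟨Q, rfl⟩ | ⟨j, rfl⟩)
    · ext x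
      simp only [Module.End.mul_apply, LinearMap.mulLeft_apply, ← mul_assoc]
      rw [← map_mul, mul_comm, map_mul]
    · exact LinearMap.commute_mulLeft_right _ _
    · exact (LinearMap.commute_mulLeft_right _ _).symm
    · ext x
      simp only [Module.End.mul_apply, LinearMap.mulRight_apply, mul_assoc]
      rw [hv i j]
  letI := Algebra.adjoinCommRingOfComm κ hcomm
  let f : MvPolynomial (Fin n) κ →+* Algebra.adjoin κ S :=
    { toFun := fun P => ⟨LinearMap.mulLeft κ (φ P), Algebra.subset_adjoin (Or.inl ⟨P, rfl⟩)⟩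
      map_one' := Subtype.ext (by
        change LinearMap.mulLeft κ (φ 1) = 1
        rw [map_one, LinearMap.mulLeft_one]
        rfl)
      map_zero' := Subtype.ext (by
        change LinearMap.mulLeft κ (φ 0) = 0
        rw [map_zero, LinearMap.mulLeft_zero_eq_zero])
      map_add' := fun P Q => Subtype.ext (by
        change LinearMap.mulLeft κ (φ (P + Q)) =
          LinearMap.mulLeft κ (φ P) + LinearMap.mulLeft κ (φ Q)
        ext x
        simp only [map_add, LinearMap.mulLeft_apply, LinearMap.add_apply, add_mul])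
      map_mul' := fun P Q => Subtype.ext (by
        change LinearMap.mulLeft κ (φ (P * Q)) =
          LinearMap.mulLeft κ (φ P) * LinearMap.mulLeft κ (φ Q)
        rw [map_mul, LinearMap.mulLeft_mul]
        rfl) }
  let g : Fin m → Algebra.adjoin κ S := fun i =>
    ⟨LinearMap.mulRight κ (v i), Algebra.subset_adjoin (Or.inr ⟨i, rfl⟩)⟩
  let Θ0 : MvPolynomial (Fin m) (MvPolynomial (Fin n) κ) →+* Algebra.adjoin κ S := eval₂Hom f g
  let ι0 : Algebra.adjoin κ S →+* Module.End κ D :=
    { toFun := fun x => (x : Module.End κ D)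
      map_one' := rfl
      map_zero' := rfl
      map_add' := fun _ _ => rfl
      map_mul' := fun _ _ => rfl }
  refine ⟨ι0.comp Θ0, fun P => ?_, fun i => ?_⟩
  · change ι0 (eval₂Hom f g (C P)) = _
    rw [eval₂Hom_C]
    rfl
  · change ι0 (eval₂Hom f g (X i)) = _
    rw [eval₂Hom_X']
    rfl

section

variable {n m : ℕ} {φ : MvPolynomial (Fin n) κ →ₐ[κ] D}
  {ψ : MvPolynomial (Fin m) (Subring.center D) →ₐ[Subring.center D] D}
  {Θ : MvPolynomial (Fin m) (MvPolynomial (Fin n) κ) →+* Module.End κ D}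

theorem op_smul (h1 : ∀ P, Θ (C P) = LinearMap.mulLeft κ (φ P)) (t : κ)
    (Q : MvPolynomial (Fin m) (MvPolynomial (Fin n) κ)) : Θ (t • Q) = t • Θ Q := by
  have e1 : t • Q = C (C t) * Q := by
    rw [Algebra.smul_def, MvPolynomial.algebraMap_apply, MvPolynomial.algebraMap_eq]
  rw [e1, map_mul, h1]
  ext x
  have e2 : φ (C t) = algebraMap κ D t := φ.commutes t
  rw [Module.End.mul_apply, LinearMap.mulLeft_apply, e2, LinearMap.smul_apply, Algebra.smul_def]

theorem op_monomial (h1 : ∀ P, Θ (C P) = LinearMap.mulLeft κ (φ P))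
    (h2 : ∀ i, Θ (X i) = LinearMap.mulRight κ (ψ (X i))) (K : Fin m →₀ ℕ)
    (P : MvPolynomial (Fin n) κ) :
    Θ (monomial K P) = LinearMap.mulLeft κ (φ P) * LinearMap.mulRight κ (ψ (monomial K 1)) := by
  have e1 : Θ (monomial K 1) = LinearMap.mulRight κ (ψ (monomial K 1)) := by
    induction K using Finsupp.induction_linear with
    | zero =>
      have : (monomial 0 (1 : MvPolynomial (Fin n) κ)) = (1 : MvPolynomial (Fin m) _) := rfl
      rw [this, map_one]
      have : (monomial 0 (1 : Subring.center D)) = (1 : MvPolynomial (Fin m) _) := rfl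
      rw [this, map_one, LinearMap.mulRight_one]
      rfl
    | add K L hK hL =>
      have a1 : (monomial (K + L) (1 : MvPolynomial (Fin n) κ)) =
          (monomial K 1 * monomial L 1 : MvPolynomial (Fin m) _) := by
        rw [monomial_mul, mul_one]
      have a2 : (monomial (K + L) (1 : Subring.center D)) =
          (monomial L 1 * monomial K 1 : MvPolynomial (Fin m) _) := by
        rw [monomial_mul, mul_one, add_comm]
      rw [a1, map_mul, hK, hL, a2, map_mul, LinearMap.mulRight_mul]
      rfl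
    | single i e =>
      have a1 : (monomial (Finsupp.single i e) (1 : MvPolynomial (Fin n) κ)) =
          (X i ^ e : MvPolynomial (Fin m) _) := by
        rw [X_pow_eq_monomial]
      have a2 : (monomial (Finsupp.single i e) (1 : Subring.center D)) =
          (X i ^ e : MvPolynomial (Fin m) _) := by
        rw [X_pow_eq_monomial]
      rw [a1, map_pow, h2, a2, map_pow, LinearMap.pow_mulRight]
  have e2 : (monomial K P : MvPolynomial (Fin m) (MvPolynomial (Fin n) κ)) =
      C P * monomial K 1 := by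
    rw [C_mul_monomial, mul_one]
  rw [e2, map_mul, h1, e1]

variable {p : ℕ} {G : ℕ → Submodule κ D} {g : ℕ} {u : Fin g → D} {d : Fin g → ℕ} {c E : ℕ}

/-- the powers of an operator do not kill a fixed piece -/
theorem Cor.power_nonkill (h : Cor p G g u d c E) [hp : Fact p.Prime] [CharP κ p]
    (hφ : Function.Injective φ) (hψ : Function.Injective ψ)
    (h1 : ∀ P, Θ (C P) = LinearMap.mulLeft κ (φ P))
    (h2 : ∀ i, Θ (X i) = LinearMap.mulRight κ (ψ (X i)))
    (Q : MvPolynomial (Fin m) (MvPolynomial (Fin n) κ)) (hQ : Q ≠ 0) (i : ℕ) :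
    ∃ x ∈ G (E * Q.support.card), (Θ Q ^ p ^ i) x ≠ 0 := by
  classical
  have e1 : Q ^ p ^ i = ∑ K ∈ Q.support, monomial (p ^ i • K) (coeff K Q ^ p ^ i) := by
    haveI : ExpChar (MvPolynomial (Fin m) (MvPolynomial (Fin n) κ)) p := by
      haveI : CharP (MvPolynomial (Fin m) (MvPolynomial (Fin n) κ)) p := inferInstance
      exact ExpChar.prime hp.out
    conv_lhs => rw [← support_sum_monomial_coeff Q]
    rw [sum_pow_char_pow]
    refine Finset.sum_congr rfl fun K _ => ?_
    rw [monomial_pow]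
  have e2 : ∀ x, (Θ Q ^ p ^ i) x = ∑ K : Q.support, φ (coeff (K : Fin m →₀ ℕ) Q ^ p ^ i) * x *
      ψ (monomial (p ^ i • (K : Fin m →₀ ℕ)) 1) := by
    intro x
    rw [← map_pow, e1, map_sum, LinearMap.sum_apply, ← Finset.sum_coe_sort]
    refine Finset.sum_congr rfl fun K _ => ?_
    rw [op_monomial h1 h2, Module.End.mul_apply, LinearMap.mulLeft_apply,
      LinearMap.mulRight_apply, mul_assoc]
  have hb : LinearIndependent (Subring.center D)
      (fun K : Q.support => ψ (monomial (p ^ i • (K : Fin m →₀ ℕ)) 1)) := by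
    have a1 : LinearIndependent (Subring.center D)
        (fun K : Fin m →₀ ℕ => ψ (monomial K 1)) := by
      have := (basisMonomials (Fin m) (Subring.center D)).linearIndependent.map'
        ψ.toLinearMap (LinearMap.ker_eq_bot.2 hψ)
      rw [coe_basisMonomials] at this
      exact this
    refine a1.comp (fun K : Q.support => p ^ i • (K : Fin m →₀ ℕ)) ?_
    intro K L hKL
    apply Subtype.ext
    have hpos : p ^ i ≠ 0 := pow_ne_zero _ hp.out.ne_zero
    ext j
    have := DFunLike.congr_fun hKL j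
    simp only [Finsupp.coe_smul, Pi.smul_apply, smul_eq_mul] at this
    exact Nat.eq_of_mul_eq_mul_left (Nat.pos_of_ne_zero hpos) this
  have ha : (fun K : Q.support => φ (coeff (K : Fin m →₀ ℕ) Q ^ p ^ i)) ≠ 0 := by
    obtain ⟨K, hK⟩ := MvPolynomial.support_nonempty.2 hQ
    intro h0
    have a1 := congrFun h0 ⟨K, hK⟩
    simp only [Pi.zero_apply] at a1
    have a2 : coeff K Q ^ p ^ i = 0 := hφ (by rw [a1, map_zero])
    exact (mem_support_iff.1 hK) (pow_eq_zero_iff (pow_ne_zero _ hp.out.ne_zero) |>.1 a2)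
  obtain ⟨x, hx, hne⟩ := h.nonkill _ hb _ ha
  rw [Fintype.card_coe] at hx
  exact ⟨x, hx, by rwa [e2]⟩

end

end BI29
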