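import Mathlib

/-!
# Selecting elements which stay algebraically independent over a larger central field
-/

set_option autoImplicit false

namespace BI29

open Finset Module MvPolynomial

theorem exists_aeval {K D : Type} [CommRing K] [Ring D] [Algebra K D] {n : ℕ} (v : Fin n → D)
    (hv : ∀ i j, v i * v j = v j * v i) :
    ∃ Φ : MvPolynomial (Fin n) K →ₐ[K] D, ∀ i, Φ (X i) = v i := by
  have hS : ∀ x ∈ Set.range v, ∀ y ∈ Set.range v, x * y = y * x := by
    rintro _ ⟨i, rfl⟩ _ ⟨j, rfl⟩
    exact hv i j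
  letI := Algebra.adjoinCommRingOfComm K hS
  let f : MvPolynomial (Fin n) K →ₐ[K] Algebra.adjoin K (Set.range v) :=
    aeval fun i => ⟨v i, Algebra.subset_adjoin ⟨i, rfl⟩⟩
  refine ⟨(Algebra.adjoin K (Set.range v)).val.comp f, fun i => ?_⟩
  rw [AlgHom.comp_apply, aeval_X]
  rfl

theorem sel_comm {k K C : Type} [Field k] [Field K] [CommRing C] [IsDomain C] [Algebra k K]
    [Algebra k C] [Algebra K C] [IsScalarTower k K C] {n : ℕ} (x : Fin n → C)
    (hx : AlgebraicIndependent k x) (hgen : Algebra.adjoin K (Set.range x) = ⊤) :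
    ∃ (n' : ℕ) (e : Fin n' → Fin n), AlgebraicIndependent K (x ∘ e) ∧
      (n : Cardinal) ≤ n' + Algebra.trdeg k K := by
  classical
  haveI : Algebra.IsAlgebraic (Algebra.adjoin K (Set.range x)) C := by
    refine ⟨fun g => ?_⟩
    have hg : g ∈ Algebra.adjoin K (Set.range x) := by
      rw [hgen]
      exact Algebra.mem_top
    exact isAlgebraic_algebraMap (⟨g, hg⟩ : Algebra.adjoin K (Set.range x))
  obtain ⟨t, ht, hb⟩ := exists_isTranscendenceBasis_subset (R := K) (Set.range x)
  have htfin : t.Finite := (Set.finite_range x).subset ht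
  haveI : Fintype t := htfin.fintype
  let eq : Fin (Fintype.card t) ≃ t := (Fintype.equivFin t).symm
  have hsel : ∀ i : Fin (Fintype.card t), ∃ j, x j = (eq i : C) := fun i => ht (eq i).2
  choose e he using hsel
  refine ⟨Fintype.card t, e, ?_, ?_⟩
  · have h1 : x ∘ e = (fun i => ((eq i : t) : C)) := funext he
    rw [h1]
    exact hb.1.comp eq eq.injective
  · have e1 : (Fintype.card t : Cardinal) = Algebra.trdeg K C := by
      rw [← hb.cardinalMk_eq_trdeg, Cardinal.mk_fintype]
    have e2 := trdeg_add_eq k K (A := C)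
    have e3 : (n : Cardinal) ≤ Algebra.trdeg k C := by
      have := hx.lift_cardinalMk_le_trdeg
      simpa using this
    rw [e1, add_comm, e2]
    exact e3

theorem exists_sel {k K D : Type} [Field k] [Field K] [Algebra k K] [DivisionRing D] [Algebra k D]
    [Algebra K D] [IsScalarTower k K D] {n : ℕ} (φ : MvPolynomial (Fin n) k →ₐ[k] D)
    (hφ : Function.Injective φ) :
    ∃ (n' : ℕ) (φ' : MvPolynomial (Fin n') K →ₐ[K] D), Function.Injective φ' ∧
      (∀ i, ∃ j, φ' (X i) = φ (X j)) ∧ (n : Cardinal) ≤ n' + Algebra.trdeg k K := by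
  classical
  obtain ⟨Φ, hΦ⟩ := exists_aeval (K := K) (fun i => φ (X i)) (fun i j => by
    rw [← map_mul, mul_comm, map_mul])
  set I := RingHom.ker (Φ : MvPolynomial (Fin n) K →+* D) with hI
  haveI : I.IsPrime := RingHom.ker_isPrime _
  let C := MvPolynomial (Fin n) K ⧸ I
  let f : C →ₐ[K] D := Ideal.Quotient.liftₐ I Φ (fun a ha => (RingHom.mem_ker).1 ha)
  have hf : Function.Injective f := by
    rw [injective_iff_map_eq_zero]
    intro a
    obtain ⟨a, rfl⟩ := Ideal.Quotient.mk_surjective a
    intro h0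
    rw [Ideal.Quotient.eq_zero_iff_mem, hI, RingHom.mem_ker]
    exact h0
  let x : Fin n → C := fun i => Ideal.Quotient.mk I (X i)
  have hfx : ∀ i, f (x i) = φ (X i) := fun i => hΦ i
  have hx : AlgebraicIndependent k x := by
    rw [AlgebraicIndependent, injective_iff_map_eq_zero]
    intro P hP
    apply hφ
    rw [map_zero]
    have h1 : (f.restrictScalars k).comp (aeval x) = φ := by
      apply MvPolynomial.algHom_ext
      intro i
      rw [AlgHom.comp_apply, aeval_X]
      exact hfx i
    rw [← h1, AlgHom.comp_apply, hP, map_zero]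
  have hgen : Algebra.adjoin K (Set.range x) = ⊤ := by
    rw [eq_top_iff]
    intro y _
    obtain ⟨P, rfl⟩ := Ideal.Quotient.mk_surjective y
    have h1 : Ideal.Quotient.mk I P = aeval x P := by
      have : (Ideal.Quotient.mkₐ K I) = aeval x := by
        apply MvPolynomial.algHom_ext
        intro i
        rw [aeval_X]
        rfl
      rw [← this]
      rfl
    rw [h1, Algebra.adjoin_range_eq_range_aeval]
    exact ⟨P, rfl⟩
  obtain ⟨n', e, he, hn'⟩ := sel_comm x hx hgen
  refine ⟨n', f.comp (aeval (x ∘ e)), ?_, fun i => ⟨e i, ?_⟩, hn'⟩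
  · exact hf.comp he
  · rw [AlgHom.comp_apply, aeval_X, Function.comp_apply, hfx]

end BI29
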