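import Pool.Agent.BI29.Core
import Pool.Agent.BI29.Div
import Pool.Agent.BI29.Sel
import Pool.Agent.BI29.Base

/-!
# The inequality for filtered deformations
-/

set_option autoImplicit false

namespace BI29

open Finset Module FD29

theorem span_finrank {K D : Type} [Field K] [AddCommGroup D] [Module K D] (s : Set D) (B : ℕ)
    (h : ∀ (N : ℕ) (x : Fin N → D), (∀ i, x i ∈ s) → LinearIndependent K x → N ≤ B) :
    FiniteDimensional K (Submodule.span K s) ∧ finrank K (Submodule.span K s) ≤ B := by
  classical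
  obtain ⟨b, hbs, hspan, hli⟩ := exists_linearIndependent K s
  have hfinset : ∀ t : Finset b, t.card ≤ B := by
    intro t
    refine h t.card (fun i => ((t.equivFin.symm i : b) : D)) (fun i => hbs (t.equivFin.symm i : b).2)
      ?_
    exact hli.comp (fun i => (t.equivFin.symm i : b)) (fun i j hij =>
      t.equivFin.symm.injective (Subtype.ext hij))
  have hfin : Finite b := by
    by_contra hinf
    rw [not_finite_iff_infinite] at hinf
    obtain ⟨t, ht⟩ := Infinite.exists_subset_card_eq b (B + 1)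
    have := hfinset t
    omega
  haveI : Fintype b := Fintype.ofFinite b
  have h1 := hfinset univ
  rw [← hspan]
  refine ⟨FiniteDimensional.span_of_finite K (Set.toFinite b), ?_⟩
  rw [finrank_span_set_eq_card hli, Set.toFinset_card]
  exact h1

variable {k A0 A : Type} [Field k] [CommRing A0] [IsDomain A0] [Algebra k A0] [Ring A]
  [Algebra k A] {F : ℕ → Submodule k A} {σ : ℕ → A → A0} {𝒜 : ℕ → Submodule k A0}
  [GradedAlgebra 𝒜]

theorem main_aux (df : Defo 𝒜 F σ) [Algebra.FiniteType k A0] {p : ℕ} [hp : Fact p.Prime]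
    [CharP k p] {D : Type} [DivisionRing D] [Algebra k D] (j : A →ₐ[k] D)
    (hj : Function.Injective j) (hfrac : ∀ z : D, ∃ a b : A, b ≠ 0 ∧ z * j b = j a)
    {K : Type} [Field K] [Algebra k K] [Algebra K D] [IsScalarTower k K D] (r C₀ : ℕ)
    (hG : ∀ (m N : ℕ) (x : Fin N → A), (∀ i, x i ∈ F m) →
      (LinearIndependent K fun i => j (x i)) → N ≤ C₀ * (m + 1) ^ r) :
    ∃ (G : ℕ → Submodule K D) (g : ℕ) (u : Fin g → D) (d : Fin g → ℕ) (c E : ℕ),
      Cor p G g u d c E ∧ (∀ N, finrank K (G N) ≤ C₀ * (N + 1) ^ r) ∧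
      ∀ m, ∀ x ∈ F m, j x ∈ G m := by
  classical
  have h := df.filt
  obtain ⟨g, uA, d, c, huA, hdiv⟩ := exists_div df
  obtain ⟨E, hE⟩ := df.exists_gen
  set G : ℕ → Submodule K D := fun m => Submodule.span K (j '' F m) with hGdef
  have hsub : ∀ m, ∀ x ∈ F m, j x ∈ G m := fun m x hx => Submodule.subset_span ⟨x, hx, rfl⟩
  have hfr : ∀ m, FiniteDimensional K (G m) ∧ finrank K (G m) ≤ C₀ * (m + 1) ^ r := by
    intro m
    refine span_finrank _ _ fun N x hx hli => ?_
    choose y hy hyx using hx
    refine hG m N y hy ?_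
    have : (fun i => j (y i)) = x := funext hyx
    rw [this]
    exact hli
  refine ⟨G, g, fun i => j (uA i), d, c, E, ?_, fun N => (hfr N).2, hsub⟩
  refine
    { mono := fun a b hab => Submodule.span_mono (Set.image_mono (h.mono hab))
      one := by
        have := hsub 0 1 h.one
        rwa [map_one] at this
      mul := ?_
      fin := fun m => (hfr m).1
      umem := fun i => hsub _ _ (huA i)
      comm := ?_
      div := ?_
      gen := ?_
      frac := ?_ }
  · intro s t x y hx hy
    refine Submodule.span_induction (p := fun x _ => x * y ∈ G (s + t)) ?_ ?_ ?_ ?_ hx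
    · rintro _ ⟨a, ha, rfl⟩
      refine Submodule.span_induction (p := fun y _ => j a * y ∈ G (s + t)) ?_ ?_ ?_ ?_ hy
      · rintro _ ⟨b, hb, rfl⟩
        rw [← map_mul]
        exact hsub _ _ (h.mul _ _ _ _ ha hb)
      · rw [mul_zero]
        exact Submodule.zero_mem _
      · intro y z _ _ hy hz
        rw [mul_add]
        exact Submodule.add_mem _ hy hz
      · intro c y _ hy
        rw [mul_smul_comm]
        exact Submodule.smul_mem _ _ hy
    · rw [zero_mul]
      exact Submodule.zero_mem _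
    · intro y z _ _ hy hz
      rw [add_mul]
      exact Submodule.add_mem _ hy hz
    · intro c y _ hy
      rw [smul_mul_assoc]
      exact Submodule.smul_mem _ _ hy
  · intro i l n x hx
    refine Submodule.span_induction
      (p := fun x _ => j (uA i) ^ p ^ l * x - x * j (uA i) ^ p ^ l ∈ G (n + p ^ l * d i))
      ?_ ?_ ?_ ?_ hx
    · rintro _ ⟨a, ha, rfl⟩
      have h1 := hsub _ _ (h.pow_comm_mem (p := p) (huA i) ha l)
      rwa [map_sub, map_mul, map_mul, map_pow] at h1
    · simp
    · intro y z _ _ hy hz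
      have : j (uA i) ^ p ^ l * (y + z) - (y + z) * j (uA i) ^ p ^ l =
          (j (uA i) ^ p ^ l * y - y * j (uA i) ^ p ^ l) +
            (j (uA i) ^ p ^ l * z - z * j (uA i) ^ p ^ l) := by
        rw [mul_add, add_mul]
        abel
      rw [this]
      exact Submodule.add_mem _ hy hz
    · intro c y _ hy
      have : j (uA i) ^ p ^ l * (c • y) - (c • y) * j (uA i) ^ p ^ l =
          c • (j (uA i) ^ p ^ l * y - y * j (uA i) ^ p ^ l) := by
        rw [mul_smul_comm, smul_mul_assoc, smul_sub]
      rw [this]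
      exact Submodule.smul_mem _ _ hy
  · intro Q n hn x hx
    refine Submodule.span_induction (p := fun x _ => ∃ y : Fin g → D,
      (∀ i, y i = 0 ∨ ((d i + 1) * Q ≤ n ∧ y i ∈ G (n - (d i + 1) * Q))) ∧
        x - ∑ i, j (uA i) ^ Q * y i ∈ G (n - 1)) ?_ ?_ ?_ ?_ hx
    · rintro _ ⟨a, ha, rfl⟩
      obtain ⟨y, hy, hay⟩ := hdiv Q n hn a ha
      refine ⟨fun i => j (y i), fun i => ?_, ?_⟩
      · rcases hy i with h1 | ⟨h1, h2⟩
        · left
          change j (y i) = 0
          rw [h1, map_zero]
        · exact Or.inr ⟨h1, hsub _ _ h2⟩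
      · have := hsub _ _ hay
        simpa only [map_sub, map_sum, map_mul, map_pow] using this
    · exact ⟨0, fun i => Or.inl rfl, by simp⟩
    · rintro x x' _ _ ⟨y, hy, hxy⟩ ⟨y', hy', hxy'⟩
      refine ⟨y + y', fun i => ?_, ?_⟩
      · rcases hy i with h1 | ⟨h1, h2⟩
        · rcases hy' i with h3 | ⟨h3, h4⟩
          · left
            rw [Pi.add_apply, h1, h3, add_zero]
          · right
            refine ⟨h3, ?_⟩
            rw [Pi.add_apply, h1, zero_add]
            exact h4
        · right
          refine ⟨h1, ?_⟩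
          rw [Pi.add_apply]
          refine Submodule.add_mem _ h2 ?_
          rcases hy' i with h3 | ⟨_, h4⟩
          · rw [h3]
            exact Submodule.zero_mem _
          · exact h4
      · have : x + x' - ∑ i, j (uA i) ^ Q * (y + y') i =
            (x - ∑ i, j (uA i) ^ Q * y i) + (x' - ∑ i, j (uA i) ^ Q * y' i) := by
          simp only [Pi.add_apply, mul_add, Finset.sum_add_distrib]
          abel
        rw [this]
        exact Submodule.add_mem _ hxy hxy'
    · rintro t x _ ⟨y, hy, hxy⟩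
      refine ⟨t • y, fun i => ?_, ?_⟩
      · rcases hy i with h1 | ⟨h1, h2⟩
        · left
          rw [Pi.smul_apply, h1, smul_zero]
        · exact Or.inr ⟨h1, Submodule.smul_mem _ _ h2⟩
      · have : t • x - ∑ i, j (uA i) ^ Q * (t • y) i = t • (x - ∑ i, j (uA i) ^ Q * y i) := by
          simp only [Pi.smul_apply, mul_smul_comm, smul_sub, Finset.smul_sum]
        rw [this]
        exact Submodule.smul_mem _ _ hxy
  · intro n x hx
    have hA : ∀ a : A, j a ∈ Algebra.adjoin K (G E : Set D) := by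
      intro a
      have ha : a ∈ Algebra.adjoin k (F E : Set A) := by
        rw [hE]
        exact Algebra.mem_top
      refine Algebra.adjoin_induction
        (p := fun a _ => j a ∈ Algebra.adjoin K (G E : Set D)) ?_ ?_ ?_ ?_ ha
      · exact fun b hb => Algebra.subset_adjoin (hsub _ _ hb)
      · intro c
        rw [AlgHom.commutes, IsScalarTower.algebraMap_apply k K D]
        exact Subalgebra.algebraMap_mem _ _
      · intro x y _ _ hx hy
        rw [map_add]
        exact Subalgebra.add_mem _ hx hy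
      · intro x y _ _ hx hy
        rw [map_mul]
        exact Subalgebra.mul_mem _ hx hy
    have h1 : G n ≤ Subalgebra.toSubmodule (Algebra.adjoin K (G E : Set D)) := by
      refine Submodule.span_le.2 ?_
      rintro _ ⟨a, _, rfl⟩
      exact hA a
    exact h1 hx
  · intro z
    obtain ⟨a, b, hb, hz⟩ := hfrac z
    obtain ⟨n1, hn1⟩ := h.exh a
    obtain ⟨n2, hn2⟩ := h.exh b
    refine ⟨max n1 n2, j a, j b, hsub _ _ (h.mono (le_max_left _ _) hn1),
      hsub _ _ (h.mono (le_max_right _ _) hn2), ?_, hz⟩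
    intro h0
    exact hb (hj (by rw [h0, map_zero]))

theorem main_gen (df : Defo 𝒜 F σ) [Algebra.FiniteType k A0] {p : ℕ} [hp : Fact p.Prime]
    [CharP k p] {D : Type} [DivisionRing D] [Algebra k D] (j : A →ₐ[k] D)
    (hj : Function.Injective j) (hfrac : ∀ z : D, ∃ a b : A, b ≠ 0 ∧ z * j b = j a) :
    ∃ (r : ℕ) (t : Cardinal), (r : Cardinal) + t ≤ Algebra.trdeg k A0 ∧
      ∀ (n : ℕ) (φ : MvPolynomial (Fin n) k →ₐ[k] A), Function.Injective φ →
        ∃ n' : ℕ, (n : Cardinal) ≤ n' + t ∧
          ∀ (m : ℕ) (ψ : MvPolynomial (Fin m) (Subring.center D) →ₐ[Subring.center D] D),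
            Function.Injective ψ → (∀ i, ∃ a, ψ (MvPolynomial.X i) = j a) → n' + m ≤ r := by
  classical
  have h := df.filt
  obtain ⟨w, iA, i0, hcen, hmem, hsym, hi0, halg0⟩ := exists_base df (p := p)
  obtain ⟨r, C₀, hr, hG⟩ := exists_growth df (p := p) iA i0 hcen hmem hsym hi0 halg0
  have hiA : Function.Injective iA := by
    rw [injective_iff_map_eq_zero]
    intro a ha
    apply hi0
    rw [← hsym, ha, h.sym_zero, map_zero]
  have hcD : ∀ a, j (iA a) ∈ Subring.center D := by
    intro a
    rw [Subring.mem_center_iff]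
    intro z
    obtain ⟨x, y, hy, hz⟩ := hfrac z
    have hy0 : j y ≠ 0 := fun h0 => hy (hj (by rw [h0, map_zero]))
    apply mul_right_cancel₀ hy0
    rw [mul_assoc, ← map_mul, hcen, map_mul, ← mul_assoc, hz, ← map_mul, ← hcen, map_mul,
      mul_assoc, hz]
  let fR : MvPolynomial w k →+* Subring.center D :=
    RingHom.codRestrict ((j : A →+* D).comp (iA : MvPolynomial w k →+* A)) (Subring.center D) hcD
  have hfR : Function.Injective fR := by
    intro a b hab
    exact hiA (hj (congrArg Subtype.val hab))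
  let K := FractionRing (MvPolynomial w k)
  let fK : K →+* Subring.center D := IsFractionRing.lift (g := fR) hfR
  letI : Algebra K D := ((Subring.center D).subtype.comp fK).toAlgebra' (fun c x => by
    exact (Subring.mem_center_iff.1 (fK c).2 x).symm)
  have hKD : ∀ a : MvPolynomial w k, algebraMap K D (algebraMap _ K a) = j (iA a) := by
    intro a
    change ((fK (algebraMap _ K a) : Subring.center D) : D) = _
    have : fK (algebraMap _ K a) = fR a := IsFractionRing.lift_algebraMap hfR a
    rw [this]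
    rfl
  haveI : IsScalarTower k K D := by
    refine IsScalarTower.of_algebraMap_eq fun c => ?_
    rw [IsScalarTower.algebraMap_apply k (MvPolynomial w k) K, hKD, AlgHom.commutes,
      AlgHom.commutes]
  haveI : CharP K p := charP_of_injective_algebraMap (algebraMap k K).injective p
  obtain ⟨G, g, u, d, c, E, hcor, hgr, hsub⟩ := main_aux df (p := p) j hj hfrac (K := K) r C₀ (by
    intro m N x hx hli
    refine hG m N x hx fun c hc => ?_
    have h1 : ∑ i, (algebraMap _ K (c i)) • j (x i) = 0 := by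
      have h2 : ∀ i, (algebraMap _ K (c i)) • j (x i) = j (iA (c i) * x i) := by
        intro i
        rw [Algebra.smul_def, hKD, map_mul]
      rw [Finset.sum_congr rfl fun i _ => h2 i, ← map_sum, hc, map_zero]
    have h3 := Fintype.linearIndependent_iff.1 hli _ h1
    funext i
    exact IsFractionRing.injective (MvPolynomial w k) K (by rw [h3 i, Pi.zero_apply, map_zero]))
  have e1 : Algebra.trdeg k K = Algebra.trdeg k (MvPolynomial w k) := trdeg_frac
  refine ⟨r, Algebra.trdeg k (MvPolynomial w k), hr, fun n φ hφ => ?_⟩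
  obtain ⟨n', φ', hφ', hφX, hn⟩ := exists_sel (K := K) (j.comp φ) (hj.comp hφ)
  rw [e1] at hn
  refine ⟨n', hn, fun m ψ hψ hψX => ?_⟩
  exact hcor.core hgr hφ' (fun i => by
      obtain ⟨l, hl⟩ := hφX i
      obtain ⟨N, hN⟩ := h.exh (φ (MvPolynomial.X l))
      exact ⟨N, by rw [hl]; exact hsub N _ hN⟩) hψ (fun i => by
      obtain ⟨a, ha⟩ := hψX i
      obtain ⟨N, hN⟩ := h.exh a
      exact ⟨N, by rw [ha]; exact hsub N _ hN⟩)

theorem main_le (df : Defo 𝒜 F σ) [Algebra.FiniteType k A0] {p : ℕ} [hp : Fact p.Prime]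
    [CharP k p] {D : Type} [DivisionRing D] [Algebra k D] (j : A →ₐ[k] D)
    (hj : Function.Injective j) (hfrac : ∀ z : D, ∃ a b : A, b ≠ 0 ∧ z * j b = j a)
    {n : ℕ} (φ : MvPolynomial (Fin n) k →ₐ[k] A) (hφ : Function.Injective φ) :
    (n : Cardinal) ≤ Algebra.trdeg k A0 := by
  obtain ⟨r, t, hrt, hmain⟩ := main_gen df (p := p) j hj hfrac
  obtain ⟨n', hn, hn'⟩ := hmain n φ hφ
  obtain ⟨Φ, _⟩ := exists_aeval (K := Subring.center D) (D := D) (n := 0) (fun i => i.elim0)
    (fun i => i.elim0)
  have hΦ : Function.Injective Φ := by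
    intro P Q hPQ
    have e : ∀ P : MvPolynomial (Fin 0) (Subring.center D), ∃ c, P = MvPolynomial.C c :=
      fun P => ⟨_, MvPolynomial.eq_C_of_isEmpty P⟩
    obtain ⟨c, rfl⟩ := e P
    obtain ⟨c', rfl⟩ := e Q
    have h1 : Φ (MvPolynomial.C c) = (c : D) := Φ.commutes c
    have h2 : Φ (MvPolynomial.C c') = (c' : D) := Φ.commutes c'
    rw [h1, h2] at hPQ
    rw [Subtype.ext hPQ]
  have h1 := hn' 0 Φ hΦ (fun i => i.elim0)
  calc (n : Cardinal) ≤ n' + t := hn
    _ ≤ r + t := by
        gcongr
        omega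
    _ ≤ _ := hrt

theorem main (df : Defo 𝒜 F σ) [Algebra.FiniteType k A0] {p : ℕ} [hp : Fact p.Prime]
    [CharP k p] {D : Type} [DivisionRing D] [Algebra k D] (j : A →ₐ[k] D)
    (hj : Function.Injective j) (hfrac : ∀ z : D, ∃ a b : A, b ≠ 0 ∧ z * j b = j a)
    {n m : ℕ} (φ : MvPolynomial (Fin n) k →ₐ[k] A) (hφ : Function.Injective φ)
    (ψ : MvPolynomial (Fin m) k →ₐ[k] A) (hψ : Function.Injective ψ) :
    (n : Cardinal) + m ≤ Algebra.trdeg k A0 + Algebra.trdeg k (Subalgebra.center k D) := by
  classical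
  obtain ⟨r, t, hrt, hmain⟩ := main_gen df (p := p) j hj hfrac
  obtain ⟨n', hn, hn'⟩ := hmain n φ hφ
  let fk : k →+* Subring.center D :=
    RingHom.codRestrict (algebraMap k D) (Subring.center D) (fun c => by
      rw [Subring.mem_center_iff]
      intro x
      exact (Algebra.commutes c x).symm)
  letI : Algebra k (Subring.center D) := fk.toAlgebra
  haveI : IsScalarTower k (Subring.center D) D := IsScalarTower.of_algebraMap_eq fun c => rfl
  obtain ⟨m', ψ', hψ', hψX, hm⟩ := exists_sel (K := Subring.center D) (j.comp ψ) (hj.comp hψ)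
  have hcore := hn' m' ψ' hψ' (fun i => by
      obtain ⟨l, hl⟩ := hψX i
      exact ⟨_, hl⟩)
  have e2 : Algebra.trdeg k (Subring.center D) = Algebra.trdeg k (Subalgebra.center k D) := by
    let e : Subring.center D ≃ₐ[k] Subalgebra.center k D :=
      { toFun := fun x => ⟨x, by
          rw [Subalgebra.mem_center_iff]
          exact Subring.mem_center_iff.1 x.2⟩
        invFun := fun x => ⟨x, by
          rw [Subring.mem_center_iff]
          exact Subalgebra.mem_center_iff.1 x.2⟩
        left_inv := fun _ => rfl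
        right_inv := fun _ => rfl
        map_mul' := fun _ _ => rfl
        map_add' := fun _ _ => rfl
        commutes' := fun _ => rfl }
    exact e.trdeg_eq
  rw [e2] at hm
  calc (n : Cardinal) + m ≤ (n' + t) + (m' + Algebra.trdeg k (Subalgebra.center k D)) :=
        add_le_add hn hm
    _ = ((n' + m' : ℕ) : Cardinal) + t + Algebra.trdeg k (Subalgebra.center k D) := by
        push_cast
        ring
    _ ≤ (r : Cardinal) + t + Algebra.trdeg k (Subalgebra.center k D) := by
        gcongr
    _ ≤ _ := by gcongr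

/-- polynomial subalgebras of commutative algebras -/
theorem exists_poly {B : Type} [CommRing B] [IsDomain B] [Algebra k B] (n : ℕ)
    (hn : (n : Cardinal) ≤ Algebra.trdeg k B) :
    ∃ φ : MvPolynomial (Fin n) k →ₐ[k] B, Function.Injective φ := by
  obtain ⟨s, hs⟩ := exists_isTranscendenceBasis k B
  rw [← hs.cardinalMk_eq_trdeg, ← Cardinal.mk_fin, Cardinal.le_def] at hn
  obtain ⟨e⟩ := hn
  exact ⟨MvPolynomial.aeval fun i => ((e i : s) : B), hs.1.comp e e.injective⟩

theorem main_trdeg (df : Defo 𝒜 F σ) [Algebra.FiniteType k A0] {p : ℕ} [hp : Fact p.Prime]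
    [CharP k p] {D : Type} [DivisionRing D] [Algebra k D] (j : A →ₐ[k] D)
    (hj : Function.Injective j) (hfrac : ∀ z : D, ∃ a b : A, b ≠ 0 ∧ z * j b = j a)
    {B : Type} [CommRing B] [Algebra k B] (f : B →ₐ[k] A) (hf : Function.Injective f)
    {B' : Type} [CommRing B'] [Algebra k B'] (f' : B' →ₐ[k] A) (hf' : Function.Injective f') :
    Algebra.trdeg k B + Algebra.trdeg k B' ≤
      Algebra.trdeg k A0 + Algebra.trdeg k (Subalgebra.center k D) := by
  have h := df.filt
  haveI : Nontrivial A := ⟨1, 0, h.nz⟩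
  haveI : NoZeroDivisors A := h.noZeroDivisors
  haveI : IsDomain A := NoZeroDivisors.to_isDomain A
  haveI : IsDomain B := Function.Injective.isDomain (f : B →+* A) hf
  haveI : IsDomain B' := Function.Injective.isDomain (f' : B' →+* A) hf'
  have hfin : ∀ {B : Type} [CommRing B] [IsDomain B] [Algebra k B] (f : B →ₐ[k] A),
      Function.Injective f → ∃ n : ℕ, Algebra.trdeg k B = n := by
    intro B _ _ _ f hf
    apply Cardinal.lt_aleph0.1
    refine lt_of_le_of_lt ?_ (trdeg_lt_aleph0_of_finiteType (R := k) (S := A0))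
    obtain ⟨r, hr⟩ := Cardinal.lt_aleph0.1 (trdeg_lt_aleph0_of_finiteType (R := k) (S := A0))
    by_contra hlt
    rw [not_le, hr] at hlt
    have h1 : ((r + 1 : ℕ) : Cardinal) ≤ Algebra.trdeg k B := by
      push_cast
      exact Cardinal.add_one_le_of_lt hlt
    obtain ⟨φ, hφ⟩ := exists_poly (r + 1) h1
    have h2 := main_le df (p := p) j hj hfrac (f.comp φ) (hf.comp hφ)
    rw [hr, Nat.cast_le] at h2
    omega
  obtain ⟨n, hn⟩ := hfin f hf
  obtain ⟨m, hm⟩ := hfin f' hf'
  obtain ⟨φ, hφ⟩ := exists_poly n hn.ge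
  obtain ⟨ψ, hψ⟩ := exists_poly m hm.ge
  rw [hn, hm]
  exact main df (p := p) j hj hfrac (f.comp φ) (hf.comp hφ) (f'.comp ψ) (hf'.comp hψ)

end BI29
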